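import Pool.Agent.W348.RG.Defs

/-!
Project RG (MP_67ef3c_al): definitions for the final statement.
-/

set_option autoImplicit false

open TensorProduct

namespace Pool.Agent.W348.RG

attribute [local instance 100] LieRing.ofAssociativeRing

/-- some positive multiple of `x` is the logarithm of an element of the group -/
def InHull {G : Type} [Group G] (r : UniRep G) (x : Mt r.m) : Prop :=
  ∃ n : ℕ, 0 < n ∧ ∃ g : G, (n : ℚ) • x = lg (r.ρ g)

/-- `malcev r` consists of the `x` such that a positive multiple of `x` is the logarithm of an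
element of the group -/
def HullC {G : Type} [Group G] (r : UniRep G) : Prop := ∀ x : Mt r.m, x ∈ malcev r ↔ InHull r x

/-- `kinv` of the complexification of a rational Lie algebra -/
noncomputable def kcx (L : Type) [LieRing L] [LieAlgebra ℚ L] : ℕ := kinv ℂ (ℂ ⊗[ℚ] L)

/-- the complexifications of two rational Lie algebras are isomorphic -/
def IsoC (L L' : Type) [LieRing L] [LieAlgebra ℚ L] [LieRing L'] [LieAlgebra ℚ L'] : Prop :=
  Nonempty ((ℂ ⊗[ℚ] L) ≃ₗ⁅ℂ⁆ (ℂ ⊗[ℚ] L'))

/-- the exponent: `kinv` of the complexified Mal'cev Lie algebra -/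
noncomputable def kc {G : Type} [Group G] (r : UniRep G) : ℕ := kcx (malcev r)

/-- the complexified Mal'cev Lie algebras are isomorphic -/
def SameC {G₁ G₂ : Type} [Group G₁] [Group G₂] (r₁ : UniRep G₁) (r₂ : UniRep G₂) : Prop :=
  IsoC (malcev r₁) (malcev r₂)

/-- `f(n)` lies between two positive multiples of `(1 + log n) ^ k` for all `n ≥ 1` -/
def LogPow (f : ℕ → ℕ) (k : ℕ) : Prop :=
  ∃ ε C : ℝ, 0 < ε ∧ ∀ n : ℕ, 1 ≤ n →
    ε * (1 + Real.log n) ^ k ≤ f n ∧ f n ≤ C * (1 + Real.log n) ^ k

/-- `S` generates `G` -/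
def Gen {G : Type} [Group G] (S : Finset G) : Prop := Subgroup.closure (S : Set G) = ⊤

end Pool.Agent.W348.RG
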