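import Pool.Agent.W348.RG.Stms

/-!
Project RG (MP_67ef3c_al): basic properties of strictly upper triangular matrices and `S_exp`.
-/

set_option autoImplicit false

open Finset TensorProduct

namespace Pool.Agent.W348.RG

attribute [local instance 100] LieRing.ofAssociativeRing

theorem mem_J {m : ℕ} {A : Mt m} : A ∈ J m ↔ ∀ i j, j ≤ i → A i j = 0 := Iff.rfl

theorem J_mul {m : ℕ} {A B : Mt m} (hA : A ∈ J m) (hB : B ∈ J m) : A * B ∈ J m := by
  intro i j hij
  rw [Matrix.mul_apply]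
  refine Finset.sum_eq_zero fun k _ => ?_
  by_cases h : k ≤ i
  · rw [hA i k h, zero_mul]
  · rw [hB k j (hij.trans (le_of_lt (not_le.mp h))), mul_zero]

theorem J_pow_apply {m : ℕ} {A : Mt m} (hA : A ∈ J m) (k : ℕ) (i j : Fin m)
    (h : (j : ℕ) < (i : ℕ) + k) : (A ^ k) i j = 0 := by
  induction k generalizing i j with
  | zero =>
    rw [pow_zero, Matrix.one_apply_ne]
    intro hij
    rw [hij] at h
    omega
  | succ k ih =>
    rw [pow_succ, Matrix.mul_apply]
    refine Finset.sum_eq_zero fun l _ => ?_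
    by_cases hl : (l : ℕ) < (i : ℕ) + k
    · rw [ih i l hl, zero_mul]
    · rw [hA l j (by rw [Fin.le_def]; omega), mul_zero]

theorem J_pow {m : ℕ} {A : Mt m} (hA : A ∈ J m) : A ^ m = 0 := by
  ext i j
  rw [J_pow_apply hA m i j (by have := j.isLt; omega)]
  rfl

theorem J_pow_mem {m : ℕ} {A : Mt m} (hA : A ∈ J m) {k : ℕ} (hk : k ≠ 0) : A ^ k ∈ J m := by
  intro i j hij
  rw [Fin.le_def] at hij
  exact J_pow_apply hA k i j (by omega)

theorem J_nilpotent {m : ℕ} {A : Mt m} (hA : A ∈ J m) : IsNilpotent A := ⟨m, J_pow hA⟩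

theorem ex_eq_exp {m : ℕ} {x : Mt m} (hx : x ∈ J m) : ex x = IsNilpotent.exp x :=
  (IsNilpotent.exp_eq_sum (J_pow hx)).symm

theorem ex_sub_one {m : ℕ} {x : Mt m} (hx : x ∈ J m) : ex x - 1 ∈ J m := by
  cases m with
  | zero => exact fun i => i.elim0
  | succ m =>
    rw [ex, Finset.sum_range_succ']
    simp only [pow_zero, Nat.factorial_zero, Nat.cast_one, inv_one, one_smul, add_sub_cancel_right]
    refine Submodule.sum_mem _ fun k _ => Submodule.smul_mem _ _ (J_pow_mem hx (by omega))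

theorem lg_mem {m : ℕ} {g : Mt m} (hg : g - 1 ∈ J m) : lg g ∈ J m := by
  rw [lg]
  refine Submodule.sum_mem _ fun k _ => ?_
  by_cases hk : k = 0
  · rw [hk]
    simp
  · exact Submodule.smul_mem _ _ (J_pow_mem hg hk)

theorem ex_add_of_commute {m : ℕ} {x y : Mt m} (hx : x ∈ J m) (hy : y ∈ J m)
    (h : Commute x y) : ex (x + y) = ex x * ex y := by
  rw [ex_eq_exp hx, ex_eq_exp hy, ex_eq_exp ((J m).add_mem hx hy)]
  exact IsNilpotent.exp_add_of_commute h (J_nilpotent hx) (J_nilpotent hy)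

/-- `S_exp` from `S_expg` -/
theorem exp (h : S_expg) : S_exp := by
  intro m
  refine ⟨fun x hx => ⟨?_, ex_sub_one hx⟩, fun g hg => ⟨?_, lg_mem hg⟩, ?_⟩
  · have := (h (Mt m) m x (J_pow hx)).2
    rw [lg, ex]
    exact this
  · have := (h (Mt m) m (g - 1) (J_pow hg)).1
    rw [ex, lg, this]
    abel
  · intro x hx s t
    rw [← ex_add_of_commute ((J m).smul_mem s hx) ((J m).smul_mem t hx), add_smul]
    exact (Commute.refl x).smul_left s |>.smul_right t

/-! ### Consequences of `S_exp` -/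

theorem ex_zero {m : ℕ} : ex (0 : Mt m) = 1 := by
  rw [ex_eq_exp (J m).zero_mem, IsNilpotent.exp_zero]

theorem ex_neg_mul {m : ℕ} {x : Mt m} (hx : x ∈ J m) : ex (-x) * ex x = 1 := by
  rw [← ex_add_of_commute ((J m).neg_mem hx) hx (Commute.neg_left (Commute.refl x)),
    neg_add_cancel, ex_zero]

theorem ex_mul_neg {m : ℕ} {x : Mt m} (hx : x ∈ J m) : ex x * ex (-x) = 1 := by
  rw [← ex_add_of_commute hx ((J m).neg_mem hx) (Commute.neg_right (Commute.refl x)),
    add_neg_cancel, ex_zero]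

theorem ex_nsmul {m : ℕ} {x : Mt m} (hx : x ∈ J m) (n : ℕ) : ex ((n : ℚ) • x) = ex x ^ n := by
  induction n with
  | zero => rw [Nat.cast_zero, zero_smul, pow_zero, ex_zero]
  | succ n ih =>
    rw [pow_succ, ← ih, Nat.cast_succ, add_smul, one_smul,
      ex_add_of_commute ((J m).smul_mem _ hx) hx ((Commute.refl x).smul_left _)]

theorem mul_sub_one_mem {m : ℕ} {g h : Mt m} (hg : g - 1 ∈ J m) (hh : h - 1 ∈ J m) :
    g * h - 1 ∈ J m := by
  have : g * h - 1 = (g - 1) * (h - 1) + (g - 1) + (h - 1) := by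
    noncomm_ring
  rw [this]
  exact (J m).add_mem ((J m).add_mem (J_mul hg hh) hg) hh

theorem one_sub_one_mem {m : ℕ} : (1 : Mt m) - 1 ∈ J m := by
  rw [sub_self]
  exact (J m).zero_mem

theorem ex_inj (h : S_exp) {m : ℕ} {x y : Mt m} (hx : x ∈ J m) (hy : y ∈ J m)
    (hxy : ex x = ex y) : x = y := by
  rw [← ((h m).1 x hx).1, ← ((h m).1 y hy).1, hxy]

theorem lg_inj (h : S_exp) {m : ℕ} {g k : Mt m} (hg : g - 1 ∈ J m) (hk : k - 1 ∈ J m)
    (hgk : lg g = lg k) : g = k := by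
  rw [← ((h m).2.1 g hg).1, ← ((h m).2.1 k hk).1, hgk]

theorem lg_ex (h : S_exp) {m : ℕ} {x : Mt m} (hx : x ∈ J m) : lg (ex x) = x := ((h m).1 x hx).1

theorem ex_lg (h : S_exp) {m : ℕ} {g : Mt m} (hg : g - 1 ∈ J m) : ex (lg g) = g :=
  ((h m).2.1 g hg).1

theorem lg_one {m : ℕ} : lg (1 : Mt m) = 0 := by
  rw [lg, sub_self]
  refine Finset.sum_eq_zero fun k _ => ?_
  by_cases hk : k = 0
  · rw [hk]
    simp
  · rw [zero_pow hk, smul_zero]

theorem uni_sub_one {G : Type} [Group G] (r : UniRep G) (g : G) : r.ρ g - 1 ∈ J r.m := by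
  intro i j hij
  rw [Matrix.sub_apply, r.uni g i j hij, Matrix.one_apply]
  exact sub_self _

theorem lg_pow (h : S_exp) {m : ℕ} {g : Mt m} (hg : g - 1 ∈ J m) (n : ℕ) :
    lg (g ^ n) = (n : ℚ) • lg g := by
  have h1 : g ^ n = ex ((n : ℚ) • lg g) := by
    rw [ex_nsmul (lg_mem hg), ex_lg h hg]
  rw [h1, lg_ex h ((J m).smul_mem _ (lg_mem hg))]

end Pool.Agent.W348.RG
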