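import Mathlib

/-!
Project RG (MP_67ef3c_al): residual finiteness growth of finitely generated torsion-free
nilpotent groups. Basic definitions.
-/

set_option autoImplicit false

open Finset TensorProduct

namespace Pool.Agent.W348.RG

/-- rational matrices of size `m` -/
abbrev Mt (m : ℕ) := Matrix (Fin m) (Fin m) ℚ

/-- strictly upper triangular matrices -/
def J (m : ℕ) : Submodule ℚ (Mt m) where
  carrier := {A | ∀ i j, j ≤ i → A i j = 0}
  add_mem' := by
    intro A B hA hB i j h
    rw [Matrix.add_apply, hA i j h, hB i j h, add_zero]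
  zero_mem' := by
    intro i j _
    rfl
  smul_mem' := by
    intro c A hA i j h
    rw [Matrix.smul_apply, hA i j h, smul_zero]

/-- the exponential series, up to the power `m - 1` -/
def ex {m : ℕ} (x : Mt m) : Mt m := ∑ k ∈ range m, ((k.factorial : ℚ)⁻¹) • x ^ k

/-- the logarithm series, up to the power `m - 1` -/
def lg {m : ℕ} (g : Mt m) : Mt m := ∑ k ∈ range m, ((-1 : ℚ) ^ (k + 1) / k) • (g - 1) ^ k

/-- a bound: all positive integers up to `Bd m` are invertible in the coefficient rings -/
def Bd (m : ℕ) : ℕ := (4 * m + 4) ^ 4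

/-- the rational numbers whose denominator is prime to `p` -/
def Rp (p : ℕ) : Subring ℚ where
  carrier := {q | q.den.Coprime p}
  mul_mem' := by
    intro a b ha hb
    exact Nat.Coprime.coprime_dvd_left (Rat.mul_den_dvd a b) (Nat.Coprime.mul_left ha hb)
  one_mem' := by simp
  add_mem' := by
    intro a b ha hb
    exact Nat.Coprime.coprime_dvd_left (Rat.add_den_dvd a b) (Nat.Coprime.mul_left ha hb)
  zero_mem' := by simp
  neg_mem' := by
    intro a ha
    simpa using ha

/-- the positive integers up to `Bd m` are invertible in `R` -/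
def Inv (m : ℕ) (R : Subring ℚ) : Prop := ∀ i : ℕ, 0 < i → i ≤ Bd m → ((i : ℚ))⁻¹ ∈ R

/-- `M` is a Lie subring and an `R`-submodule of the strictly upper triangular matrices -/
structure IsLie {m : ℕ} (R : Subring ℚ) (M : AddSubgroup (Mt m)) : Prop where
  smul : ∀ r ∈ R, ∀ x ∈ M, r • x ∈ M
  le : ∀ x ∈ M, x ∈ J m
  br : ∀ x ∈ M, ∀ y ∈ M, x * y - y * x ∈ M

/-- `I` is an ideal of the Lie ring `M` and an `R`-submodule -/
structure IsIdl {m : ℕ} (R : Subring ℚ) (M I : AddSubgroup (Mt m)) : Prop where
  smul : ∀ r ∈ R, ∀ x ∈ I, r • x ∈ I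
  le : I ≤ M
  br : ∀ x ∈ M, ∀ y ∈ I, x * y - y * x ∈ I

/-- a faithful representation of the group `G` by upper unitriangular rational matrices -/
structure UniRep (G : Type) [Group G] where
  m : ℕ
  ρ : G →* Mt m
  inj : Function.Injective ρ
  uni : ∀ g i j, j ≤ i → ρ g i j = if i = j then 1 else 0

attribute [local instance 100] LieRing.ofAssociativeRing

/-- the rational Mal'cev Lie algebra: the Lie algebra generated by the logarithms -/
def malcev {G : Type} [Group G] (r : UniRep G) : LieSubalgebra ℚ (Mt r.m) :=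
  LieSubalgebra.lieSpan ℚ (Mt r.m) (Set.range fun g => lg (r.ρ g))

/-- the least index of a normal subgroup of finite index which does not contain `g` -/
noncomputable def DG {G : Type} [Group G] (g : G) : ℕ :=
  sInf {k | 0 < k ∧ ∃ N : Subgroup G, N.Normal ∧ N.index = k ∧ g ∉ N}

/-- the elements of word length at most `n` with respect to `S` -/
def ball {G : Type} [Group G] (S : Set G) (n : ℕ) : Set G :=
  {g | ∃ l : List G, l.length ≤ n ∧ (∀ x ∈ l, x ∈ S ∨ x⁻¹ ∈ S) ∧ l.prod = g}

/-- the residual finiteness growth -/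
noncomputable def RF {G : Type} [Group G] (S : Set G) (n : ℕ) : ℕ :=
  sSup {k | ∃ g ∈ ball S n, g ≠ 1 ∧ DG g = k}

/-- domination of functions: `f(n) ≤ C h(C n)` -/
def Dom (f h : ℕ → ℕ) : Prop := ∃ C > 0, ∀ n, f n ≤ C * h (C * n)

/-- the intersection of all ideals of codimension at most `c` of a Lie algebra -/
noncomputable def Jc (F L : Type) [Field F] [LieRing L] [LieAlgebra F L] (c : ℕ) :
    Submodule F L :=
  ⨅ (I : LieIdeal F L) (_ : Module.finrank F L ≤ Module.finrank F I + c), I.toSubmodule

/-- the least `c` such that the ideals of codimension at most `c` intersect in zero -/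
noncomputable def kinv (F L : Type) [Field F] [LieRing L] [LieAlgebra F L] : ℕ :=
  sInf {c | Jc F L c = ⊥}

end Pool.Agent.W348.RG
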