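import Pool.Agent.W348.RG.Base

/-!
Project RG (MP_67ef3c_al): the final assembly.
-/

set_option autoImplicit false

open Finset TensorProduct

namespace Pool.Agent.W348.RG

attribute [local instance 100] LieRing.ofAssociativeRing

/-! ### The invariant -/

theorem Jc_finrank (F L : Type) [Field F] [LieRing L] [LieAlgebra F L] [Module.Finite F L] :
    Jc F L (Module.finrank F L) = ⊥ := by
  rw [eq_bot_iff]
  refine iInf₂_le_of_le (⊥ : LieIdeal F L) (by omega) ?_
  exact le_of_eq rfl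

theorem Jc_kinv (F L : Type) [Field F] [LieRing L] [LieAlgebra F L] [Module.Finite F L] :
    Jc F L (kinv F L) = ⊥ :=
  Nat.sInf_mem (s := {c | Jc F L c = ⊥}) ⟨_, Jc_finrank F L⟩

theorem Jc_ne_bot_of_lt {F L : Type} [Field F] [LieRing L] [LieAlgebra F L] {c : ℕ}
    (h : c < kinv F L) : Jc F L c ≠ ⊥ := fun hc => Nat.notMem_of_lt_sInf h hc

theorem Jc_bot_of_equiv {F L L' : Type} [Field F] [LieRing L] [LieAlgebra F L]
    [LieRing L'] [LieAlgebra F L'] (e : L ≃ₗ⁅F⁆ L') {c : ℕ} (h : Jc F L' c = ⊥) :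
    Jc F L c = ⊥ := by
  rw [eq_bot_iff]
  intro x hx
  have key : e x ∈ Jc F L' c := by
    rw [Jc, Submodule.mem_iInf]
    intro I
    rw [Submodule.mem_iInf]
    intro hI
    rw [Jc, Submodule.mem_iInf] at hx
    have h1 := hx (I.comap (e : L →ₗ⁅F⁆ L'))
    rw [Submodule.mem_iInf] at h1
    have h2 : Module.finrank F L ≤
        Module.finrank F (I.comap (e : L →ₗ⁅F⁆ L')).toSubmodule + c := by
      have h3 : Module.finrank F L = Module.finrank F L' := e.toLinearEquiv.finrank_eq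
      have h4 : Submodule.map (e.toLinearEquiv : L →ₗ[F] L')
          (I.comap (e : L →ₗ⁅F⁆ L')).toSubmodule = I.toSubmodule := by
        ext y
        simp only [Submodule.mem_map]
        constructor
        · rintro ⟨z, hz, rfl⟩
          exact hz
        · intro hy
          refine ⟨e.symm y, ?_, e.apply_symm_apply y⟩
          change e (e.symm y) ∈ I
          rw [e.apply_symm_apply]
          exact hy
      have h5 := LinearEquiv.finrank_map_eq e.toLinearEquiv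
        (I.comap (e : L →ₗ⁅F⁆ L')).toSubmodule
      rw [h4] at h5
      rw [← h5, h3]
      exact hI
    exact h1 h2
  rw [h, Submodule.mem_bot] at key
  rw [Submodule.mem_bot]
  have := congrArg e.symm key
  rwa [e.symm_apply_apply, map_zero] at this

theorem kinv_eq_of_equiv {F L L' : Type} [Field F] [LieRing L] [LieAlgebra F L]
    [LieRing L'] [LieAlgebra F L'] (e : L ≃ₗ⁅F⁆ L') : kinv F L = kinv F L' := by
  rw [kinv, kinv]
  congr 1
  ext c
  exact ⟨Jc_bot_of_equiv e.symm, Jc_bot_of_equiv e⟩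

theorem finite_malcev {G : Type} [Group G] (r : UniRep G) : Module.Finite ℚ (malcev r) :=
  inferInstanceAs (Module.Finite ℚ (malcev r).toSubmodule)

theorem Jc_zero {F L : Type} [Field F] [LieRing L] [LieAlgebra F L] [Module.Finite F L] :
    Jc F L 0 = ⊤ := by
  rw [eq_top_iff, Jc]
  refine le_iInf₂ fun I hI => ?_
  have : I.toSubmodule = ⊤ := by
    apply Submodule.eq_top_of_finrank_eq
    refine le_antisymm (Submodule.finrank_le _) ?_
    rw [add_zero] at hI
    exact hI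
  rw [this]

theorem kinv_pos {F L : Type} [Field F] [LieRing L] [LieAlgebra F L] [Module.Finite F L]
    [Nontrivial L] : 0 < kinv F L := by
  rw [Nat.pos_iff_ne_zero]
  intro h0
  have h1 := Jc_kinv F L
  rw [h0, Jc_zero] at h1
  exact top_ne_bot h1

theorem nontrivial_malcev (hexp : S_exp) {G : Type} [Group G] [Nontrivial G] (r : UniRep G) :
    Nontrivial (malcev r) := by
  obtain ⟨g, hg⟩ := exists_ne (1 : G)
  refine ⟨⟨lg (r.ρ g), LieSubalgebra.subset_lieSpan ⟨g, rfl⟩⟩, 0, fun h => hg ?_⟩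
  have h1 : lg (r.ρ g) = lg 1 := by
    rw [lg_one]
    exact congrArg Subtype.val h
  have h2 := lg_inj hexp (uni_sub_one r g) one_sub_one_mem h1
  rw [← map_one r.ρ] at h2
  exact r.inj h2

theorem subsingleton_malcev {G : Type} [Group G] [Subsingleton G] (r : UniRep G) :
    Subsingleton (malcev r) := by
  have h : malcev r = ⊥ := by
    rw [malcev, eq_bot_iff, LieSubalgebra.lieSpan_le]
    rintro _ ⟨g, rfl⟩
    have : g = 1 := Subsingleton.elim _ _
    change lg (r.ρ g) ∈ (⊥ : LieSubalgebra ℚ (Mt r.m))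
    rw [this, map_one, lg_one]
    exact LieSubalgebra.zero_mem _
  rw [h]
  exact LieSubalgebra.subsingleton_bot

/-! ### Growth functions -/

theorem exists_ball {G : Type} [Group G] {S : Set G} (h : Subgroup.closure S = ⊤) (g : G) :
    ∃ n, g ∈ ball S n := by
  have hg : g ∈ (Subgroup.closure S).toSubmonoid := by
    rw [h]
    exact Subgroup.mem_top g
  rw [Subgroup.closure_toSubmonoid] at hg
  obtain ⟨l, hl, hp⟩ := Submonoid.exists_list_of_mem_closure hg
  exact ⟨l.length, l, le_rfl, fun x hx => by simpa using hl x hx, hp⟩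

theorem ball_zero {G : Type} [Group G] (S : Set G) {g : G} (h : g ∈ ball S 0) : g = 1 := by
  obtain ⟨l, hl, -, hp⟩ := h
  rw [List.length_eq_zero_iff.mp (Nat.le_zero.mp hl)] at hp
  rw [← hp, List.prod_nil]

theorem RF_zero {G : Type} [Group G] (S : Set G) : RF S 0 = 0 := by
  rw [RF]
  have : {k | ∃ g ∈ ball S 0, g ≠ 1 ∧ DG g = k} = ∅ := by
    rw [Set.eq_empty_iff_forall_notMem]
    rintro k ⟨g, hg, h1, -⟩
    exact h1 (ball_zero S hg)
  rw [this, csSup_empty]
  rfl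

theorem RF_subsingleton {G : Type} [Group G] [Subsingleton G] (S : Set G) (n : ℕ) :
    RF S n = 0 := by
  rw [RF]
  have : {k | ∃ g ∈ ball S n, g ≠ 1 ∧ DG g = k} = ∅ := by
    rw [Set.eq_empty_iff_forall_notMem]
    rintro k ⟨g, -, h1, -⟩
    exact h1 (Subsingleton.elim _ _)
  rw [this, csSup_empty]
  rfl

theorem DG_le {G : Type} [Group G] {g : G} {N : Subgroup G} (hN : N.Normal) (h0 : N.index ≠ 0)
    (hg : g ∉ N) : DG g ≤ N.index :=
  Nat.sInf_le ⟨Nat.pos_of_ne_zero h0, N, hN, rfl, hg⟩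

theorem RF_le {G : Type} [Group G] (S : Set G) (n : ℕ) (B : ℝ) (hB : 0 ≤ B)
    (h : ∀ g ∈ ball S n, g ≠ 1 → ∃ N : Subgroup G, N.Normal ∧ N.index ≠ 0 ∧ g ∉ N ∧
      (N.index : ℝ) ≤ B) : (RF S n : ℝ) ≤ B := by
  rw [RF]
  rcases Set.eq_empty_or_nonempty {k | ∃ g ∈ ball S n, g ≠ 1 ∧ DG g = k} with h0 | h0
  · rw [h0, csSup_empty]
    simpa using hB
  · have h1 : sSup {k | ∃ g ∈ ball S n, g ≠ 1 ∧ DG g = k} ≤ ⌊B⌋₊ := by
      refine csSup_le h0 ?_
      rintro k ⟨g, hg, h1, rfl⟩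
      obtain ⟨N, hN, h2, h3, h4⟩ := h g hg h1
      exact (DG_le hN h2 h3).trans (Nat.le_floor h4)
    exact (Nat.le_floor_iff hB).mp h1

theorem torsionfree (hexp : S_exp) {G : Type} [Group G] (r : UniRep G) (x : G) (n : ℕ)
    (hn : 0 < n) (hx : x ^ n = 1) : x = 1 := by
  have h1 : lg (r.ρ (x ^ n)) = (n : ℚ) • lg (r.ρ x) := by
    rw [map_pow, lg_pow hexp (uni_sub_one r x)]
  rw [hx, map_one, lg_one] at h1
  have h2 : lg (r.ρ x) = 0 := by
    rcases smul_eq_zero.mp h1.symm with h | h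
    · exact absurd (Nat.cast_eq_zero.mp h) hn.ne'
    · exact h
  rw [← lg_one] at h2
  have h3 := lg_inj hexp (uni_sub_one r x) one_sub_one_mem h2
  rw [← map_one r.ρ] at h3
  exact r.inj h3

/-- the two-sided bound for the residual finiteness growth -/
def S_bnd : Prop :=
  ∀ (G : Type) [Group G] [Nontrivial G] (r : UniRep G) (S : Finset G),
    Subgroup.closure (S : Set G) = ⊤ → ∃ ε C : ℝ, 0 < ε ∧ ∀ n : ℕ, 1 ≤ n →
      ε * (1 + Real.log n) ^ kinv ℂ (ℂ ⊗[ℚ] malcev r) ≤ RF (S : Set G) n ∧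
      RF (S : Set G) n ≤ C * (1 + Real.log n) ^ kinv ℂ (ℂ ⊗[ℚ] malcev r)

theorem log_succ_le {n : ℕ} (hn : 1 ≤ n) : Real.log (n + 1) ≤ 1 + Real.log n := by
  have h0 : (1 : ℝ) ≤ n := by exact_mod_cast hn
  have h1 : Real.log (n + 1) ≤ Real.log (2 * n) :=
    Real.log_le_log (by linarith) (by linarith)
  rw [Real.log_mul (by norm_num) (by linarith)] at h1
  have h2 : Real.log 2 < 0.6931471808 := Real.log_two_lt_d9
  linarith

theorem bnd (hexp : S_exp) (hutn : S_utn) (hupg : S_upg) (hkill : S_kill) (hlow : S_low) :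
    S_bnd := by
  intro G _ _ r S hS
  have hfin := finite_malcev r
  have hnt := nontrivial_malcev hexp r
  have hnt' : Nontrivial (ℂ ⊗[ℚ] malcev r) := by
    rw [← Module.finrank_pos_iff (R := ℂ), Module.finrank_baseChange, Module.finrank_pos_iff]
    exact hnt
  set k := kinv ℂ (ℂ ⊗[ℚ] malcev r) with hk
  have hk0 : 0 < k := kinv_pos
  have hJ : Jc ℂ (ℂ ⊗[ℚ] malcev r) k = ⊥ := Jc_kinv _ _
  have hJ' : Jc ℂ (ℂ ⊗[ℚ] malcev r) (k - 1) ≠ ⊥ := Jc_ne_bot_of_lt (by omega)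
  have hnil : Group.IsNilpotent G := hutn r.m G r.ρ r.inj r.uni
  obtain ⟨C, hC, hup⟩ := hupg G r S hS k hJ
  have hrf : ∀ g : G, g ≠ 1 → ∃ N : Subgroup G, N.Normal ∧ N.index ≠ 0 ∧ g ∉ N := by
    intro g hg
    obtain ⟨n, hn⟩ := exists_ball hS g
    obtain ⟨N, h1, h2, h3, -⟩ := hup n g hn hg
    exact ⟨N, h1, h2, h3⟩
  obtain ⟨ε, hε, hlo⟩ := hlow G S hS hrf (torsionfree hexp r) (k - 1) (hkill G r (k - 1) hJ')
  refine ⟨ε, C * 2 ^ k, hε, fun n hn => ⟨?_, ?_⟩⟩
  · have := hlo n hn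
    rwa [Nat.sub_add_cancel hk0] at this
  · have hn0 : 0 ≤ Real.log n := Real.log_natCast_nonneg n
    have hn1 : 0 ≤ Real.log (n + 1) := by
      have := Real.log_natCast_nonneg (n + 1)
      rwa [Nat.cast_add, Nat.cast_one] at this
    have h1 : (RF (S : Set G) n : ℝ) ≤ C * (1 + Real.log (n + 1)) ^ k := by
      refine RF_le _ n _ (by positivity) fun g hg hg1 => ?_
      obtain ⟨N, h1, h2, h3, h4⟩ := hup n g hg hg1
      exact ⟨N, h1, h2, h3, h4⟩
    refine h1.trans ?_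
    rw [mul_assoc, ← mul_pow]
    refine mul_le_mul_of_nonneg_left (pow_le_pow_left₀ (by linarith) ?_ k) hC.le
    have := log_succ_le hn
    linarith

theorem dom_of_bnd {f h : ℕ → ℕ} {k : ℕ} {ε C : ℝ} (hε : 0 < ε) (hf0 : f 0 = 0)
    (hf : ∀ n : ℕ, 1 ≤ n → (f n : ℝ) ≤ C * (1 + Real.log n) ^ k)
    (hh : ∀ n : ℕ, 1 ≤ n → ε * (1 + Real.log n) ^ k ≤ h n) : Dom f h := by
  refine ⟨⌈|C| / ε⌉₊ + 1, by omega, fun n => ?_⟩
  set B : ℕ := ⌈|C| / ε⌉₊ + 1 with hB
  rcases Nat.eq_zero_or_pos n with h0 | h0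
  · rw [h0, hf0]
    exact Nat.zero_le _
  · have h1 := hf n h0
    have hBn : 1 ≤ B * n := Nat.mul_pos (by omega) h0
    have h2 := hh (B * n) hBn
    have h3 : |C| / ε ≤ B := by
      rw [hB, Nat.cast_add, Nat.cast_one]
      have := Nat.le_ceil (|C| / ε)
      linarith
    have hn0 : 0 ≤ Real.log n := Real.log_natCast_nonneg n
    have h4 : Real.log n ≤ Real.log ((B * n : ℕ) : ℝ) := by
      refine Real.log_le_log (by exact_mod_cast h0) ?_
      exact_mod_cast Nat.le_mul_of_pos_left n (by omega)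
    have h5 : (1 + Real.log n) ^ k ≤ (1 + Real.log ((B * n : ℕ) : ℝ)) ^ k :=
      pow_le_pow_left₀ (by linarith) (by linarith) k
    have h6 : (0 : ℝ) ≤ (1 + Real.log n) ^ k := by positivity
    have h7 : |C| ≤ B * ε := by
      rwa [div_le_iff₀ hε] at h3
    have h8 : (f n : ℝ) ≤ ((B * h (B * n) : ℕ) : ℝ) := by
      calc (f n : ℝ) ≤ C * (1 + Real.log n) ^ k := h1
        _ ≤ |C| * (1 + Real.log n) ^ k := mul_le_mul_of_nonneg_right (le_abs_self C) h6
        _ ≤ (B * ε) * (1 + Real.log n) ^ k := mul_le_mul_of_nonneg_right h7 h6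
        _ = B * (ε * (1 + Real.log n) ^ k) := by ring
        _ ≤ B * (ε * (1 + Real.log ((B * n : ℕ) : ℝ)) ^ k) := by
            refine mul_le_mul_of_nonneg_left (mul_le_mul_of_nonneg_left h5 hε.le) ?_
            positivity
        _ ≤ B * (h (B * n) : ℝ) := by
            refine mul_le_mul_of_nonneg_left h2 ?_
            positivity
        _ = ((B * h (B * n) : ℕ) : ℝ) := by push_cast; ring
    exact_mod_cast h8

/-- isomorphic complexified Mal'cev Lie algebras: equivalent residual finiteness growths -/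
def S_cmp : Prop :=
  ∀ (G₁ G₂ : Type) [Group G₁] [Group G₂] (r₁ : UniRep G₁) (r₂ : UniRep G₂)
    (S₁ : Finset G₁) (S₂ : Finset G₂), Subgroup.closure (S₁ : Set G₁) = ⊤ →
    Subgroup.closure (S₂ : Set G₂) = ⊤ →
    Nonempty ((ℂ ⊗[ℚ] malcev r₁) ≃ₗ⁅ℂ⁆ (ℂ ⊗[ℚ] malcev r₂)) →
    Dom (RF (S₁ : Set G₁)) (RF (S₂ : Set G₂)) ∧ Dom (RF (S₂ : Set G₂)) (RF (S₁ : Set G₁))

theorem dom_zero {f h : ℕ → ℕ} (hf : ∀ n, f n = 0) : Dom f h :=
  ⟨1, one_pos, fun n => by rw [hf n]; exact Nat.zero_le _⟩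

theorem cmp (hexp : S_exp) (hb : S_bnd) : S_cmp := by
  intro G₁ G₂ _ _ r₁ r₂ S₁ S₂ hS₁ hS₂ ⟨e⟩
  have hf1 := finite_malcev r₁
  have hf2 := finite_malcev r₂
  have hiff : ∀ (G : Type) [Group G] (r : UniRep G),
      Nontrivial G ↔ 0 < Module.finrank ℂ (ℂ ⊗[ℚ] malcev r) := by
    intro G _ r
    have hf := finite_malcev r
    rw [Module.finrank_baseChange, Module.finrank_pos_iff]
    constructor
    · intro h
      exact nontrivial_malcev hexp r
    · intro h
      by_contra h1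
      rw [not_nontrivial_iff_subsingleton] at h1
      have := subsingleton_malcev r
      exact not_nontrivial (malcev r) h
  have hrk : Module.finrank ℂ (ℂ ⊗[ℚ] malcev r₁) = Module.finrank ℂ (ℂ ⊗[ℚ] malcev r₂) :=
    e.toLinearEquiv.finrank_eq
  rcases subsingleton_or_nontrivial G₁ with h1 | h1
  · have h2 : Subsingleton G₂ := by
      rw [← not_nontrivial_iff_subsingleton, hiff G₂ r₂, ← hrk, ← hiff G₁ r₁,
        not_nontrivial_iff_subsingleton]
      exact h1
    exact ⟨dom_zero fun n => RF_subsingleton _ n, dom_zero fun n => RF_subsingleton _ n⟩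
  · have h2 : Nontrivial G₂ := by
      rw [hiff G₂ r₂, ← hrk, ← hiff G₁ r₁]
      exact h1
    obtain ⟨ε₁, C₁, hε₁, hb₁⟩ := hb G₁ r₁ S₁ hS₁
    obtain ⟨ε₂, C₂, hε₂, hb₂⟩ := hb G₂ r₂ S₂ hS₂
    rw [kinv_eq_of_equiv e] at hb₁
    exact ⟨dom_of_bnd hε₂ (RF_zero _) (fun n hn => (hb₁ n hn).2) (fun n hn => (hb₂ n hn).1),
      dom_of_bnd hε₁ (RF_zero _) (fun n hn => (hb₂ n hn).2) (fun n hn => (hb₁ n hn).1)⟩

end Pool.Agent.W348.RG
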