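import Pool.Agent.W348.RG.Stms

/-!
Project RG (MP_67ef3c_al), FINP: separation in quotients of prime power order.
-/

set_option autoImplicit false

namespace Pool.Agent.W348.RG

theorem finp : S_finp := by
  classical
  intro G _ _ N hN hidx g hg
  have hex : ∃ k, k ≠ 0 ∧ ∃ N' : Subgroup G, N'.Normal ∧ N ≤ N' ∧ g ∉ N' ∧ N'.index = k :=
    ⟨N.index, hidx, N, hN, le_rfl, hg, rfl⟩
  obtain ⟨hk0, N', hN', hle, hg', hk⟩ := Nat.find_spec hex
  set k := Nat.find hex with hkdef
  have hmin : ∀ M : Subgroup G, M.Normal → N' ≤ M → M ≠ N' → g ∈ M := by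
    intro M hM hNM hne
    by_contra hgM
    have h1 : M.index ∣ N'.index := Subgroup.index_dvd_of_le hNM
    have h0 : N'.index ≠ 0 := by rw [hk]; exact hk0
    have h2 : M.index ≠ 0 := fun h => h0 (by rw [h] at h1; exact Nat.eq_zero_of_zero_dvd h1)
    have h3 : M.index < k := by
      refine lt_of_le_of_ne ?_ ?_
      · rw [← hk]
        exact Nat.le_of_dvd (Nat.pos_of_ne_zero h0) h1
      · intro h
        apply hne
        have h4 : N'.relIndex M * M.index = N'.index := Subgroup.relIndex_mul_index hNM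
        rw [h, hk] at h4
        have h5 : N'.relIndex M = 1 := by
          have : N'.relIndex M * k = 1 * k := by rw [h4, one_mul]
          exact Nat.eq_of_mul_eq_mul_right (Nat.pos_of_ne_zero hk0) this
        exact le_antisymm (Subgroup.relIndex_eq_one.mp h5) hNM
    exact Nat.find_min hex h3 ⟨h2, M, hM, hle.trans hNM, hgM, rfl⟩
  have hfi : N'.FiniteIndex := ⟨by rw [hk]; exact hk0⟩
  have hfin : Finite (G ⧸ N') := inferInstance
  have hnil : Group.IsNilpotent (G ⧸ N') := inferInstance
  have hcard : Nat.card (G ⧸ N') = k := by rw [← hk]; rfl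
  have hgne : (QuotientGroup.mk' N' g) ≠ 1 := by
    intro h
    rw [QuotientGroup.mk'_apply, QuotientGroup.eq_one_iff] at h
    exact hg' h
  have hsyl : ∀ q : ℕ, q.Prime → q ∣ Nat.card (G ⧸ N') →
      ∃ e, orderOf (QuotientGroup.mk' N' g) = q ^ e := by
    intro q hq hdvd
    have hfact : Fact q.Prime := ⟨hq⟩
    obtain ⟨P⟩ : Nonempty (Sylow q (G ⧸ N')) := inferInstance
    have hPn : (P : Subgroup (G ⧸ N')).Normal := inferInstance
    have hPne : (P : Subgroup (G ⧸ N')) ≠ ⊥ := P.ne_bot_of_dvd_card hdvd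
    have hmem : g ∈ (P : Subgroup (G ⧸ N')).comap (QuotientGroup.mk' N') := by
      refine hmin _ (hPn.comap _) ?_ ?_
      · intro x hx
        rw [Subgroup.mem_comap]
        have : QuotientGroup.mk' N' x = 1 := by
          rw [QuotientGroup.mk'_apply, QuotientGroup.eq_one_iff]
          exact hx
        rw [this]
        exact Subgroup.one_mem _
      · intro h
        apply hPne
        rw [eq_bot_iff]
        intro y hy
        obtain ⟨x, rfl⟩ := QuotientGroup.mk'_surjective N' y
        have hx : x ∈ (P : Subgroup (G ⧸ N')).comap (QuotientGroup.mk' N') := hy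
        rw [h] at hx
        rw [Subgroup.mem_bot, QuotientGroup.mk'_apply, QuotientGroup.eq_one_iff]
        exact hx
    rw [Subgroup.mem_comap] at hmem
    have hpg := P.2
    obtain ⟨e, he⟩ := (IsPGroup.iff_orderOf.mp hpg) ⟨_, hmem⟩
    refine ⟨e, ?_⟩
    rw [← he]
    exact (Subgroup.orderOf_mk _ hmem).symm
  have hk1 : k ≠ 1 := by
    intro h1
    have h2 : Subsingleton (G ⧸ N') := (Nat.card_eq_one_iff_unique.mp (hcard.trans h1)).1
    exact hgne (Subsingleton.elim _ _)
  obtain ⟨p, hp, hpk⟩ := Nat.exists_prime_and_dvd hk1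
  obtain ⟨e, he⟩ := hsyl p hp (by rw [hcard]; exact hpk)
  have he0 : e ≠ 0 := by
    intro h
    rw [h, pow_zero, orderOf_eq_one_iff] at he
    exact hgne he
  refine ⟨p, k.primeFactorsList.length, N', hp, hN', hle, hg', ?_, ?_⟩
  · rw [hk]
    refine Nat.eq_prime_pow_of_unique_prime_dvd hk0 ?_
    intro q hq hqk
    obtain ⟨e', he'⟩ := hsyl q hq (by rw [hcard]; exact hqk)
    have h1 : p ∣ q ^ e' := by
      rw [← he', he]
      exact dvd_pow_self p he0
    exact ((Nat.prime_dvd_prime_iff_eq hp hq).mp (hp.dvd_of_dvd_pow h1)).symm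
  · exact Subgroup.index_dvd_of_le hle

end Pool.Agent.W348.RG
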