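import Pool.Agent.W348.RG.Stms

/-!
Project RG (MP_67ef3c_al), ISO: isolators in nilpotent groups.
-/

set_option autoImplicit false

namespace Pool.Agent.W348.RG

open scoped commutatorElement

theorem iso_pow_comm {G : Type} [Group G] (y g c : G) (hc : ∀ x, c * x = x * c)
    (h : y * g = c * (g * y)) (n : ℕ) : y ^ n * g = c ^ n * (g * y ^ n) := by
  induction n with
  | zero => simp
  | succ n ih =>
    have hcn : ∀ x, c ^ n * x = x * c ^ n := fun x =>
      ((show Commute c x from hc x).pow_left n).eq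
    calc y ^ (n + 1) * g = y ^ n * (y * g) := by rw [pow_succ, mul_assoc]
      _ = y ^ n * (c * (g * y)) := by rw [h]
      _ = c * (y ^ n * g * y) := by
          rw [← mul_assoc, ← hc, mul_assoc, mul_assoc]
      _ = c * (c ^ n * (g * y ^ n) * y) := by rw [ih]
      _ = c ^ (n + 1) * (g * y ^ (n + 1)) := by
          rw [pow_succ' c, pow_succ y]
          simp only [mul_assoc]

theorem iso_comm_pow {G : Type} [Group G] (g k c : G) (hc : ∀ x, c * x = x * c)
    (h : g * k = c * (k * g)) (m n : ℕ) : g ^ m * k ^ n = c ^ (m * n) * (k ^ n * g ^ m) := by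
  have h1 : g ^ m * k = c ^ m * (k * g ^ m) := iso_pow_comm g k c hc h m
  have hcm : ∀ x, c ^ m * x = x * c ^ m := fun x =>
      ((show Commute c x from hc x).pow_left m).eq
  have hcm' : ∀ x, (c ^ m)⁻¹ * x = x * (c ^ m)⁻¹ := fun x =>
      ((show Commute (c ^ m) x from hcm x).inv_left).eq
  have h2 : k * g ^ m = (c ^ m)⁻¹ * (g ^ m * k) := by
    rw [h1, inv_mul_cancel_left]
  have h3 := iso_pow_comm k (g ^ m) (c ^ m)⁻¹ hcm' h2 n
  rw [h3, inv_pow, ← pow_mul, mul_inv_cancel_left]

theorem iso_aux (n : ℕ) : ∀ (K : Type) [Group K],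
    (⊤ : Subgroup K).lowerCentralSeries n = ⊥ → ∀ (P : Subgroup K) (E : Submonoid ℕ) (X : Set K),
    Subgroup.closure X = ⊤ → (∀ x ∈ X, ∃ m ∈ E, x ^ m ∈ P) → ∀ k : K, ∃ m ∈ E, k ^ m ∈ P := by
  -- commuting elements
  have hcommute : ∀ (K : Type) [Group K] (P : Subgroup K) (E : Submonoid ℕ) (x y : K),
      x * y = y * x → (∃ m ∈ E, x ^ m ∈ P) → (∃ m ∈ E, y ^ m ∈ P) →
      ∃ m ∈ E, (x * y) ^ m ∈ P := by
    rintro K _ P E x y hxy ⟨m, hm, hx⟩ ⟨m', hm', hy⟩
    refine ⟨m * m', E.mul_mem hm hm', ?_⟩
    rw [(show Commute x y from hxy).mul_pow, pow_mul, mul_comm m m', pow_mul]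
    exact P.mul_mem (P.pow_mem hx _) (P.pow_mem hy _)
  have hinv : ∀ (K : Type) [Group K] (P : Subgroup K) (E : Submonoid ℕ) (x : K),
      (∃ m ∈ E, x ^ m ∈ P) → ∃ m ∈ E, x⁻¹ ^ m ∈ P := by
    rintro K _ P E x ⟨m, hm, hx⟩
    refine ⟨m, hm, ?_⟩
    rw [inv_pow]
    exact P.inv_mem hx
  induction n with
  | zero =>
    intro K _ h P E X _ _ k
    refine ⟨1, E.one_mem, ?_⟩
    have h1 : k ∈ (⊤ : Subgroup K).lowerCentralSeries 0 := Subgroup.mem_top k
    rw [h, Subgroup.mem_bot] at h1
    rw [h1, one_pow]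
    exact P.one_mem
  | succ n ih =>
    intro K _ h P E X hX hXP
    rcases Nat.eq_zero_or_pos n with hn | hn
    · -- the abelian case
      subst hn
      have hab : ∀ x y : K, x * y = y * x := by
        intro x y
        have h1 : ⁅x, y⁆ ∈ (⊤ : Subgroup K).lowerCentralSeries (0 + 1) :=
          Subgroup.commutator_mem_commutator (Subgroup.mem_top x) (Subgroup.mem_top y)
        rw [h, Subgroup.mem_bot] at h1
        exact commutatorElement_eq_one_iff_mul_comm.mp h1
      intro k
      have hk : k ∈ Subgroup.closure X := by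
        rw [hX]
        exact Subgroup.mem_top k
      induction hk using Subgroup.closure_induction with
      | mem x hx => exact hXP x hx
      | one => exact ⟨1, E.one_mem, by rw [one_pow]; exact P.one_mem⟩
      | mul x y _ _ hx hy => exact hcommute K P E x y (hab x y) hx hy
      | inv x _ hx => exact hinv K P E x hx
    · obtain ⟨n, rfl⟩ : ∃ l, n = l + 1 := ⟨n - 1, by omega⟩
      set Z := (⊤ : Subgroup K).lowerCentralSeries (n + 1) with hZ
      have hZc : ∀ z ∈ Z, ∀ x, z * x = x * z := by
        intro z hz x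
        have h1 : ⁅z, x⁆ ∈ (⊤ : Subgroup K).lowerCentralSeries (n + 1 + 1) :=
          Subgroup.commutator_mem_commutator hz (Subgroup.mem_top x)
        rw [h, Subgroup.mem_bot] at h1
        exact commutatorElement_eq_one_iff_mul_comm.mp h1
      have hZn : Z.Normal := inferInstance
      have hQ : (⊤ : Subgroup (K ⧸ Z)).lowerCentralSeries (n + 1) = ⊥ := by
        have h1 := Subgroup.map_lowerCentralSeries (⊤ : Subgroup K) (QuotientGroup.mk' Z) (n + 1)
        rw [← MonoidHom.range_eq_map, MonoidHom.range_eq_top.mpr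
          (QuotientGroup.mk'_surjective Z)] at h1
        rw [← h1, ← hZ, eq_bot_iff]
        rintro _ ⟨z, hz, rfl⟩
        rw [Subgroup.mem_bot, QuotientGroup.mk'_apply, QuotientGroup.eq_one_iff]
        exact hz
      have hk1 : ∀ k : K, ∃ m ∈ E, ∃ p ∈ P, ∃ z ∈ Z, k ^ m = p * z := by
        intro k
        have hcl : Subgroup.closure (QuotientGroup.mk' Z '' X) = ⊤ := by
          rw [← MonoidHom.map_closure, hX, ← MonoidHom.range_eq_map,
            MonoidHom.range_eq_top.mpr (QuotientGroup.mk'_surjective Z)]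
        obtain ⟨m, hm, hkm⟩ := ih (K ⧸ Z) hQ (P.map (QuotientGroup.mk' Z)) E
          (QuotientGroup.mk' Z '' X) hcl (by
            rintro _ ⟨x, hx, rfl⟩
            obtain ⟨m, hm, hxm⟩ := hXP x hx
            exact ⟨m, hm, x ^ m, hxm, map_pow _ _ _⟩) (QuotientGroup.mk' Z k)
        obtain ⟨p, hp, hpk⟩ := hkm
        refine ⟨m, hm, p, hp, p⁻¹ * k ^ m, ?_, (mul_inv_cancel_left _ _).symm⟩
        rw [← map_pow, QuotientGroup.mk'_apply, QuotientGroup.mk'_apply,
          QuotientGroup.eq] at hpk
        exact hpk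
      have hzz : ∀ z ∈ Z, ∃ m ∈ E, z ^ m ∈ P := by
        intro z hz
        rw [hZ, Subgroup.mem_lowerCentralSeries_succ_iff] at hz
        have key : z ∈ Z ∧ ∃ m ∈ E, z ^ m ∈ P := by
          induction hz using Subgroup.closure_induction with
          | mem x hx =>
            obtain ⟨g, hg, k, -, rfl⟩ := hx
            have hcZ : ⁅g, k⁆ ∈ Z := Subgroup.commutator_mem_commutator hg (Subgroup.mem_top k)
            refine ⟨hcZ, ?_⟩
            obtain ⟨m, hm, p, hp, u, hu, h1⟩ := hk1 g
            obtain ⟨m', hm', p', hp', u', hu', h2⟩ := hk1 k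
            refine ⟨m * m', E.mul_mem hm hm', ?_⟩
            have h3 : g * k = ⁅g, k⁆ * (k * g) := by
              rw [commutatorElement_def]
              group
            have h4 := iso_comm_pow g k ⁅g, k⁆ (hZc _ hcZ) h3 m m'
            rw [h1, h2] at h4
            have hu1 := hZc u hu
            have hu2 := hZc u' hu'
            have h5 : p * u * (p' * u') = (p * p') * (u * u') := by
              calc p * u * (p' * u') = p * (u * p') * u' := by simp only [mul_assoc]
                _ = p * (p' * u) * u' := by rw [hu1]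
                _ = _ := by simp only [mul_assoc]
            have h6 : p' * u' * (p * u) = (p' * p) * (u * u') := by
              calc p' * u' * (p * u) = p' * (u' * p) * u := by simp only [mul_assoc]
                _ = p' * (p * u') * u := by rw [hu2]
                _ = p' * p * (u' * u) := by simp only [mul_assoc]
                _ = _ := by rw [hu2]
            rw [h5, h6, ← mul_assoc (⁅g, k⁆ ^ (m * m')) (p' * p) (u * u')] at h4
            have h7 := mul_right_cancel h4
            have h8 : ⁅g, k⁆ ^ (m * m') = p * p' * (p' * p)⁻¹ := by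
              rw [h7, mul_inv_cancel_right]
            rw [h8]
            exact P.mul_mem (P.mul_mem hp hp') (P.inv_mem (P.mul_mem hp' hp))
          | one => exact ⟨Z.one_mem, 1, E.one_mem, by rw [one_pow]; exact P.one_mem⟩
          | mul x y _ _ hx hy =>
            exact ⟨Z.mul_mem hx.1 hy.1, hcommute K P E x y (hZc x hx.1 y) hx.2 hy.2⟩
          | inv x _ hx => exact ⟨Z.inv_mem hx.1, hinv K P E x hx.2⟩
        exact key.2
      intro k
      obtain ⟨m, hm, p, hp, z, hz, h1⟩ := hk1 k
      obtain ⟨m', hm', h2⟩ := hzz z hz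
      refine ⟨m * m', E.mul_mem hm hm', ?_⟩
      rw [pow_mul, h1, (show Commute p z from (hZc z hz p).symm).mul_pow]
      exact P.mul_mem (P.pow_mem hp _) h2

theorem iso : S_iso := by
  intro K _ _ P E _ a b ha hb
  set H : Subgroup K := Subgroup.closure {a, b} with hH
  have haH : a ∈ H := Subgroup.subset_closure (by simp)
  have hbH : b ∈ H := Subgroup.subset_closure (by simp)
  have hnil : Group.IsNilpotent H := inferInstance
  obtain ⟨n, hn⟩ := (Subgroup.nilpotent_iff_lowerCentralSeries (G := H)).mp hnil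
  have hcl : Subgroup.closure (((↑) : H → K) ⁻¹' {a, b}) = ⊤ := Subgroup.closure_closure_coe_preimage
  obtain ⟨m, hm, h1⟩ := iso_aux n H hn (P.subgroupOf H) E _ hcl (by
    intro x hx
    rw [Set.mem_preimage, Set.mem_insert_iff, Set.mem_singleton_iff] at hx
    rcases hx with hx | hx
    · obtain ⟨m, hm, h⟩ := ha
      refine ⟨m, hm, ?_⟩
      rw [Subgroup.mem_subgroupOf, Subgroup.coe_pow, hx]
      exact h
    · obtain ⟨m, hm, h⟩ := hb
      refine ⟨m, hm, ?_⟩
      rw [Subgroup.mem_subgroupOf, Subgroup.coe_pow, hx]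
      exact h) (⟨a, haH⟩ * ⟨b, hbH⟩)
  exact ⟨m, hm, h1⟩

end Pool.Agent.W348.RG
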