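import Pool.Agent.W348.RG.Sep

/-!
Project RG (MP_67ef3c_al), JEN: faithful unitriangular representations of finitely generated
torsion-free nilpotent groups.
-/

set_option autoImplicit false

open Finset Module

namespace Pool.Agent.W348.RG

/-- polynomial functions of bounded degree on a finitely generated group form a
finite-dimensional space -/
theorem U_finite {G : Type} [Group G] [hG : Group.FG G] (n : ℕ) :
    (U (fun x y : G => x * y) n).FG := by
  induction n with
  | zero => exact Submodule.fg_bot
  | succ n ih =>
    obtain ⟨S, hS⟩ := Group.fg_def.mp hG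
    let Φ : (G → ℚ) →ₗ[ℚ] (S → (G → ℚ)) :=
      { toFun := fun f s x => f (x * s) - f x
        map_add' := by
          intro f h
          funext s x
          simp only [Pi.add_apply]
          ring
        map_smul' := by
          intro c f
          funext s x
          simp only [Pi.smul_apply, smul_eq_mul, RingHom.id_apply]
          ring }
    refine Submodule.fg_of_fg_map_of_fg_inf_ker Φ ?_ ?_
    · have h1 : (Submodule.pi Set.univ (fun _ : S => U (fun x y : G => x * y) n)).FG :=
        Submodule.fg_pi fun _ => ih
      have h2 : (U (fun x y : G => x * y) (n + 1)).map Φ ≤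
          Submodule.pi Set.univ (fun _ : S => U (fun x y : G => x * y) n) := by
        rintro _ ⟨f, hf, rfl⟩ s _
        exact hf s
      have h3 : Module.Finite ℚ (Submodule.pi Set.univ
          (fun _ : S => U (fun x y : G => x * y) n)) := Module.Finite.iff_fg.mpr h1
      exact Module.Finite.iff_fg.mp (Submodule.finiteDimensional_of_le h2)
    · have h1 : (Submodule.span ℚ {(fun _ => 1 : G → ℚ)}).FG := Submodule.fg_span_singleton _
      have h2 : U (fun x y : G => x * y) (n + 1) ⊓ LinearMap.ker Φ ≤
          Submodule.span ℚ {(fun _ => 1 : G → ℚ)} := by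
        rintro f ⟨-, hf⟩
        rw [SetLike.mem_coe, LinearMap.mem_ker] at hf
        have h3 : ∀ g : G, ∀ x, f (x * g) = f x := by
          intro g
          have hg : g ∈ Subgroup.closure (S : Set G) := by
            rw [hS]
            exact Subgroup.mem_top g
          induction hg using Subgroup.closure_induction with
          | mem s hs =>
            intro x
            exact sub_eq_zero.mp (congrFun (congrFun hf ⟨s, hs⟩) x)
          | one => simp
          | mul a b _ _ ha hb =>
            intro x
            rw [← mul_assoc, hb, ha]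
          | inv a _ ha =>
            intro x
            have := ha (x * a⁻¹)
            rw [inv_mul_cancel_right] at this
            exact this.symm
        rw [Submodule.mem_span_singleton]
        refine ⟨f 1, ?_⟩
        funext x
        have := h3 x 1
        rw [one_mul] at this
        simp [this]
      have h3 : Module.Finite ℚ (Submodule.span ℚ {(fun _ => 1 : G → ℚ)}) :=
        Module.Finite.iff_fg.mpr h1
      exact Module.Finite.iff_fg.mp (Submodule.finiteDimensional_of_le h2)

/-- a basis in which a unipotent representation is unitriangular -/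
theorem flag_basis (G : Type) [Group G] (n : ℕ) : ∀ (V : Type) [AddCommGroup V] [Module ℚ V]
    [Module.Finite ℚ V] (π : G →* Module.End ℚ V) (W : ℕ → Submodule ℚ V) (N : ℕ),
    Module.finrank ℚ V = n → W 0 = ⊥ → (∀ k g, ∀ v ∈ W (k + 1), π g v - v ∈ W k) → W N = ⊤ →
    ∃ b : Basis (Fin n) ℚ V, ∀ g j, π g (b j) - b j ∈ Submodule.span ℚ (b '' {i | j < i}) := by
  induction n with
  | zero =>
    intro V _ _ _ π W N hn h0 hs hN
    exact ⟨Module.finBasisOfFinrankEq ℚ V hn, fun g j => j.elim0⟩
  | succ n ih =>
    intro V _ _ _ π W N hn h0 hs hN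
    have hnt : Nontrivial V := by
      rw [← Module.finrank_pos_iff (R := ℚ), hn]
      omega
    classical
    have hex : ∃ N, W N = ⊤ := ⟨N, hN⟩
    obtain ⟨K, hK⟩ : ∃ K, Nat.find hex = K + 1 := by
      refine Nat.exists_eq_succ_of_ne_zero ?_
      intro h
      have := Nat.find_spec hex
      rw [h, h0] at this
      exact bot_ne_top this
    have hK1 : W (K + 1) = ⊤ := by
      have := Nat.find_spec hex
      rwa [hK] at this
    have hK2 : W K ≠ ⊤ := Nat.find_min hex (by omega)
    obtain ⟨f, hf0, hf⟩ := Submodule.exists_le_ker_of_lt_top (W K) (lt_top_iff_ne_top.mpr hK2)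
    have hfs : Function.Surjective f := LinearMap.surjective hf0
    have hinv : ∀ g v, π g v - v ∈ LinearMap.ker f := by
      intro g v
      refine hf (hs K g v ?_)
      rw [hK1]
      exact Submodule.mem_top
    have hinv' : ∀ g, ∀ v ∈ LinearMap.ker f, π g v ∈ LinearMap.ker f := by
      intro g v hv
      have := (LinearMap.ker f).add_mem (hinv g v) hv
      rwa [sub_add_cancel] at this
    let π' : G →* Module.End ℚ (LinearMap.ker f) :=
      { toFun := fun g => (π g).restrict (hinv' g)
        map_one' := by
          ext v
          simp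
        map_mul' := by
          intro g h
          ext v
          simp }
    have hπ' : ∀ g (v : LinearMap.ker f), ((π' g v : LinearMap.ker f) : V) = π g v :=
      fun g v => rfl
    have hfr : Module.finrank ℚ (LinearMap.ker f) = n := by
      have h1 := LinearMap.finrank_range_add_finrank_ker f
      rw [LinearMap.range_eq_top.mpr hfs, finrank_top, Module.finrank_self, hn] at h1
      omega
    obtain ⟨b', hb'⟩ := ih (LinearMap.ker f) π' (fun k => (W k).comap (LinearMap.ker f).subtype)
      (K + 1) hfr (by
        simp only [h0]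
        rw [Submodule.comap_bot, Submodule.ker_subtype]) (by
        intro k g v hv
        exact hs k g v hv) (by
        simp only [hK1]
        exact Submodule.comap_top _)
    obtain ⟨y, hy⟩ := hfs 1
    have hli : ∀ (c : ℚ), ∀ x ∈ LinearMap.ker f, c • y + x = 0 → c = 0 := by
      intro c x hx h
      have := congrArg f h
      rw [map_add, map_smul, hy, (LinearMap.mem_ker).mp hx, map_zero, add_zero, smul_eq_mul,
        mul_one] at this
      exact this
    have hsp : ∀ z : V, ∃ c : ℚ, z + c • y ∈ LinearMap.ker f := by
      intro z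
      refine ⟨-f z, ?_⟩
      rw [LinearMap.mem_ker, map_add, map_smul, hy]
      simp
    let b := Basis.mkFinCons y b' hli hsp
    have hb0 : b 0 = y := by
      simp [b, Basis.coe_mkFinCons]
    have hbs : ∀ i : Fin n, b i.succ = b' i := by
      intro i
      simp [b, Basis.coe_mkFinCons]
    have hspan : ∀ (s : Set (Fin n)) (v : LinearMap.ker f), v ∈ Submodule.span ℚ (b' '' s) →
        (v : V) ∈ Submodule.span ℚ (b '' (Fin.succ '' s)) := by
      intro s v hv
      have h1 := Submodule.mem_map_of_mem (f := (LinearMap.ker f).subtype) hv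
      rw [Submodule.map_span] at h1
      refine Submodule.span_mono ?_ h1
      rintro _ ⟨_, ⟨i, hi, rfl⟩, rfl⟩
      exact ⟨i.succ, ⟨i, hi, rfl⟩, hbs i⟩
    refine ⟨b, fun g j => ?_⟩
    refine Fin.cases ?_ (fun j => ?_) j
    · rw [hb0]
      have h1 := hspan Set.univ ⟨_, hinv g y⟩ (by
        rw [Set.image_univ]
        exact b'.mem_span _)
      refine Submodule.span_mono (Set.image_mono ?_) h1
      rintro _ ⟨i, -, rfl⟩
      exact Fin.succ_pos i
    · rw [hbs]
      have h1 := hspan _ _ (hb' g j)
      rw [Submodule.coe_sub, hπ'] at h1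
      refine Submodule.span_mono (Set.image_mono ?_) h1
      rintro _ ⟨i, hi, rfl⟩
      exact Fin.succ_lt_succ_iff.mpr hi

/-- a faithful unipotent representation gives a faithful unitriangular representation -/
theorem uniRep_of_flag (G : Type) [Group G] (V : Type) [AddCommGroup V] [Module ℚ V]
    [Module.Finite ℚ V] (π : G →* Module.End ℚ V) (hinj : Function.Injective π)
    (W : ℕ → Submodule ℚ V) (N : ℕ) (h0 : W 0 = ⊥)
    (hs : ∀ k g, ∀ v ∈ W (k + 1), π g v - v ∈ W k) (hN : W N = ⊤) : Nonempty (UniRep G) := by
  obtain ⟨b, hb⟩ := flag_basis G (Module.finrank ℚ V) V π W N rfl h0 hs hN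
  set c := b.reindex Fin.revPerm with hc
  let ρ : G →* Mt (Module.finrank ℚ V) :=
    ((LinearMap.toMatrixAlgEquiv c : _ ≃ₐ[ℚ] _) : Module.End ℚ V →* _).comp π
  have hρ : ∀ g, ρ g = LinearMap.toMatrixAlgEquiv c (π g) := fun g => rfl
  refine ⟨⟨Module.finrank ℚ V, ρ, ?_, ?_⟩⟩
  · intro g h hgh
    rw [hρ, hρ] at hgh
    exact hinj ((LinearMap.toMatrixAlgEquiv c).injective hgh)
  · intro g i j hij
    rw [hρ, LinearMap.toMatrixAlgEquiv_apply]
    have h1 : c j = b (Fin.rev j) := by
      rw [hc, Basis.reindex_apply]
      simp
    have h2 : ∀ v, c.repr v i = b.repr v (Fin.rev i) := by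
      intro v
      rw [hc, Basis.repr_reindex_apply]
      simp
    rw [h1, h2]
    have h3 := hb g (Fin.rev j)
    rw [Basis.mem_span_image] at h3
    have h4 : b.repr (π g (b (Fin.rev j)) - b (Fin.rev j)) (Fin.rev i) = 0 := by
      by_contra hne
      have h5 := h3 (Finsupp.mem_support_iff.mpr hne)
      have h6 : Fin.rev j < Fin.rev i := h5
      rw [Fin.rev_lt_rev] at h6
      exact absurd hij (not_le.mpr h6)
    rw [map_sub, Finsupp.sub_apply, sub_eq_zero, Basis.repr_self, Finsupp.single_apply] at h4
    rw [h4]
    by_cases hij' : i = j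
    · rw [if_pos hij', if_pos (by rw [hij'])]
    · rw [if_neg hij', if_neg (fun h => hij' (Fin.rev_injective h).symm)]

theorem jen : S_jen := by
  intro G _ _ hfg h
  obtain ⟨n, hn⟩ := sep_nil G hfg h
  have hfin : Module.Finite ℚ (U (fun x y : G => x * y) n) :=
    Module.Finite.iff_fg.mpr (U_finite n)
  let τ : G → ((U (fun x y : G => x * y) n) →ₗ[ℚ] (U (fun x y : G => x * y) n)) := fun g =>
    { toFun := fun f => ⟨fun x => (f : G → ℚ) (x * g), U_trans _ n f.2 g⟩
      map_add' := fun _ _ => rfl
      map_smul' := fun _ _ => rfl }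
  let π : G →* Module.End ℚ (U (fun x y : G => x * y) n) :=
    { toFun := τ
      map_one' := by
        ext f x
        simp [τ]
      map_mul' := by
        intro g g'
        ext f x
        simp [τ, mul_assoc] }
  have hπ : ∀ g f x, ((π g f : U (fun x y : G => x * y) n) : G → ℚ) x =
    (f : G → ℚ) (x * g) := fun _ _ _ => rfl
  refine uniRep_of_flag G _ π ?_
    (fun k => (U (fun x y : G => x * y) k).comap (U (fun x y : G => x * y) n).subtype) n ?_ ?_ ?_
  · rw [injective_iff_map_eq_one]
    intro g hg
    by_contra hne
    obtain ⟨f, hf, hfg'⟩ := hn g hne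
    apply hfg'
    have h1 := hπ g ⟨f, hf⟩ 1
    rw [hg] at h1
    simpa using h1.symm
  · change Submodule.comap _ ⊥ = ⊥
    rw [Submodule.comap_bot, Submodule.ker_subtype]
  · intro k g f hf
    exact hf g
  · rw [Submodule.comap_subtype_self]

end Pool.Agent.W348.RG
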