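import Pool.Agent.W348.RG.Base

/-!
Project RG (MP_67ef3c_al), LAT: coordinates of logarithms.
-/

set_option autoImplicit false

open Finset Module

namespace Pool.Agent.W348.RG

attribute [local instance 100] LieRing.ofAssociativeRing

/-- a common denominator -/
theorem common_den {ι : Type} [Finite ι] (f : ι → ℚ) : ∃ D : ℕ, 0 < D ∧ ∀ i, ∃ z : ℤ,
    (D : ℚ) * f i = z := by
  classical
  have := Fintype.ofFinite ι
  refine ⟨∏ i, (f i).den, Finset.prod_pos fun i _ => (f i).den_pos, fun i => ?_⟩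
  refine ⟨(∏ j ∈ univ.erase i, ((f j).den : ℤ)) * (f i).num, ?_⟩
  rw [← Finset.mul_prod_erase univ (fun i => (f i).den) (Finset.mem_univ i)]
  push_cast
  have h1 : ((f i).den : ℚ) * f i = (f i).num := by
    rw [mul_comm]
    exact Rat.mul_den_eq_num (f i)
  calc ((f i).den : ℚ) * (∏ j ∈ univ.erase i, ((f j).den : ℚ)) * f i
      = (∏ j ∈ univ.erase i, ((f j).den : ℚ)) * (((f i).den : ℚ) * f i) := by ring
    _ = _ := by rw [h1]

theorem lat (hht : S_ht) : S_lat := by
  classical
  intro G _ r S hS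
  have hfd : Module.Finite ℚ (malcev r) :=
    inferInstanceAs (Module.Finite ℚ (malcev r).toSubmodule)
  set d := Module.finrank ℚ (malcev r) with hd
  let e : Basis (Fin d) ℚ (malcev r) := Module.finBasis ℚ (malcev r)
  -- structure constants
  obtain ⟨D1, hD1, h1⟩ := common_den (fun t : Fin d × Fin d × Fin d =>
    e.repr ⁅e t.1, e t.2.1⁆ t.2.2)
  -- extension of the coordinates
  have hext : ∀ i, ∃ φ : Mt r.m →ₗ[ℚ] ℚ, ∀ x : malcev r, φ x = e.repr x i := by
    intro i
    obtain ⟨φ, hφ⟩ := LinearMap.exists_extend (p := (malcev r).toSubmodule) (e.coord i)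
    exact ⟨φ, fun x => LinearMap.congr_fun hφ x⟩
  choose φ hφ using hext
  obtain ⟨D2, hD2, h2⟩ := common_den (fun t : Fin d × Fin r.m × Fin r.m =>
    φ t.1 (Matrix.single t.2.1 t.2.2 1))
  have hexp : ∀ (i : Fin d) (x : Mt r.m),
      φ i x = ∑ a, ∑ b, x a b * φ i (Matrix.single a b 1) := by
    intro i x
    conv_lhs => rw [Matrix.matrix_eq_sum_single x]
    rw [map_sum]
    refine Finset.sum_congr rfl fun a _ => ?_
    rw [map_sum]
    refine Finset.sum_congr rfl fun b _ => ?_
    rw [← smul_eq_mul, ← map_smul, Matrix.smul_single, smul_eq_mul, mul_one]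
  -- the word lengths
  set S' : Finset (Mt r.m) := S.image (fun g => r.ρ g) ∪ S.image (fun g => r.ρ g⁻¹) with hS'
  obtain ⟨C0, D0, hD0, h0⟩ := hht r.m S' (by
    intro A hA
    rw [hS', Finset.mem_union, Finset.mem_image, Finset.mem_image] at hA
    rcases hA with ⟨g, -, rfl⟩ | ⟨g, -, rfl⟩
    · exact uni_sub_one r g
    · exact uni_sub_one r g⁻¹)
  have hword : ∀ n, ∀ g ∈ ball (S : Set G) n, ∀ a b, |lg (r.ρ g) a b| ≤ C0 * (n + 1) ^ C0 ∧
      ∃ z : ℤ, (D0 : ℚ) * lg (r.ρ g) a b = z := by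
    rintro n g ⟨l, hl, hlS, rfl⟩ a b
    have h3 := h0 (l.map r.ρ) (by
      intro A hA
      rw [List.mem_map] at hA
      obtain ⟨x, hx, rfl⟩ := hA
      rw [hS', Finset.mem_union, Finset.mem_image, Finset.mem_image]
      rcases hlS x hx with h | h
      · exact Or.inl ⟨x, h, rfl⟩
      · exact Or.inr ⟨x⁻¹, h, by rw [inv_inv]⟩) a b
    rw [List.length_map, ← map_list_prod] at h3
    refine ⟨h3.1.trans ?_, h3.2⟩
    have : ((l.length : ℚ) + 1) ^ C0 ≤ ((n : ℚ) + 1) ^ C0 := by
      refine pow_le_pow_left₀ (by positivity) ?_ _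
      have : (l.length : ℚ) ≤ n := by exact_mod_cast hl
      linarith
    exact mul_le_mul_of_nonneg_left this (by positivity)
  -- a bound for the functionals
  obtain ⟨B, hB⟩ : ∃ B : ℕ, ∀ i, ∑ a, ∑ b, |φ i (Matrix.single a b 1)| ≤ (B : ℚ) := by
    obtain ⟨B, hB⟩ := exists_nat_ge (∑ i, ∑ a, ∑ b, |φ i (Matrix.single a b 1)|)
    refine ⟨B, fun i => le_trans ?_ hB⟩
    exact Finset.single_le_sum (f := fun i => ∑ a, ∑ b, |φ i (Matrix.single a b 1)|)
      (fun i _ => Finset.sum_nonneg fun a _ => Finset.sum_nonneg fun b _ => abs_nonneg _)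
      (Finset.mem_univ i)
  refine ⟨d, e, C0 * (B + 1), D0 * D1 * D2, by positivity, ?_, ?_⟩
  · intro i j k
    obtain ⟨z, hz⟩ := h1 (i, j, k)
    refine ⟨(D0 * D2 : ℤ) * z, ?_⟩
    push_cast
    rw [← hz]
    ring
  · intro n g hg
    have hmem : lg (r.ρ g) ∈ malcev r := LieSubalgebra.subset_lieSpan ⟨g, rfl⟩
    refine ⟨hmem, fun i => ?_⟩
    have h3 : e.repr ⟨lg (r.ρ g), hmem⟩ i =
        ∑ a, ∑ b, lg (r.ρ g) a b * φ i (Matrix.single a b 1) := by
      rw [← hφ, hexp]
    rw [h3]
    constructor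
    · calc |∑ a, ∑ b, lg (r.ρ g) a b * φ i (Matrix.single a b 1)|
          ≤ ∑ a, ∑ b, |lg (r.ρ g) a b * φ i (Matrix.single a b 1)| := by
            refine (Finset.abs_sum_le_sum_abs _ _).trans ?_
            exact Finset.sum_le_sum fun a _ => Finset.abs_sum_le_sum_abs _ _
        _ ≤ ∑ a, ∑ b, (C0 * (n + 1) ^ C0) * |φ i (Matrix.single a b 1)| := by
            refine Finset.sum_le_sum fun a _ => Finset.sum_le_sum fun b _ => ?_
            rw [abs_mul]
            exact mul_le_mul_of_nonneg_right (hword n g hg a b).1 (abs_nonneg _)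
        _ = (C0 * (n + 1) ^ C0) * ∑ a, ∑ b, |φ i (Matrix.single a b 1)| := by
            rw [Finset.mul_sum]
            refine Finset.sum_congr rfl fun a _ => ?_
            rw [Finset.mul_sum]
        _ ≤ (C0 * (n + 1) ^ C0) * B := by
            exact mul_le_mul_of_nonneg_left (hB i) (by positivity)
        _ ≤ ((C0 * (B + 1) : ℕ) : ℚ) * (n + 1) ^ (C0 * (B + 1)) := by
            have h4 : ((n : ℚ) + 1) ^ C0 ≤ ((n : ℚ) + 1) ^ (C0 * (B + 1)) := by
              refine pow_le_pow_right₀ ?_ ?_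
              · have : (0 : ℚ) ≤ n := Nat.cast_nonneg n
                linarith
              · exact Nat.le_mul_of_pos_right _ (by omega)
            push_cast
            calc (C0 : ℚ) * (n + 1) ^ C0 * B ≤ (C0 : ℚ) * (n + 1) ^ C0 * (B + 1) := by
                  refine mul_le_mul_of_nonneg_left (by linarith) (by positivity)
              _ = (C0 * (B + 1)) * (n + 1) ^ C0 := by ring
              _ ≤ _ := mul_le_mul_of_nonneg_left h4 (by positivity)
    · choose z hz using fun a b => (hword n g hg a b).2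
      choose w hw using fun t => h2 t
      refine ⟨D1 * ∑ a, ∑ b, z a b * w (i, a, b), ?_⟩
      push_cast
      rw [Finset.mul_sum, Finset.mul_sum]
      refine Finset.sum_congr rfl fun a _ => ?_
      rw [Finset.mul_sum, Finset.mul_sum]
      refine Finset.sum_congr rfl fun b _ => ?_
      rw [← hz, ← hw]
      ring

end Pool.Agent.W348.RG
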