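import Pool.Agent.W348.RG.Base

/-!
Project RG (MP_67ef3c_al), NRM: the normal subgroup belonging to an ideal.
-/

set_option autoImplicit false

open Finset Module

namespace Pool.Agent.W348.RG

attribute [local instance 100] LieRing.ofAssociativeRing

theorem inv_Rp {m p : ℕ} (hp : p.Prime) (hm : Bd m < p) : Inv m (Rp p) := by
  intro i hi hi'
  change ((i : ℚ)⁻¹).den.Coprime p
  rw [Rat.inv_natCast_den_of_pos hi]
  exact (Nat.coprime_of_lt_prime hi.ne' (by omega) hp).symm

theorem nrm (hexp : S_exp) (hbch : S_bch) : S_nrm := by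
  intro G _ r p hp hpB M I hM hI hGM hidx
  have hinv : Inv r.m (Rp p) := inv_Rp hp hpB
  obtain ⟨hclo, hid⟩ := hbch r.m (Rp p) hinv M hM
  obtain ⟨hcong, -⟩ := hid I hI
  set X : G → Mt r.m := fun g => lg (r.ρ g) with hX
  have hXJ : ∀ g, X g ∈ J r.m := fun g => hM.le _ (hGM g)
  have hex : ∀ g, ex (X g) = r.ρ g := fun g => ex_lg hexp (uni_sub_one r g)
  have hmul : ∀ g h, X (g * h) = lg (ex (X g) * ex (X h)) := by
    intro g h
    rw [hex, hex, ← map_mul]
  have hinvX : ∀ g, X g⁻¹ = - X g := by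
    intro g
    have h1 : ex (-X g) = r.ρ g⁻¹ := by
      have h2 : ex (-X g) * r.ρ g = 1 := by
        rw [← hex g]
        exact ex_neg_mul (hXJ g)
      have h3 : r.ρ g * r.ρ g⁻¹ = 1 := by
        rw [← map_mul, mul_inv_cancel, map_one]
      calc ex (-X g) = ex (-X g) * (r.ρ g * r.ρ g⁻¹) := by rw [h3, mul_one]
        _ = r.ρ g⁻¹ := by rw [← mul_assoc, h2, one_mul]
    rw [hX]
    simp only
    rw [← h1, lg_ex hexp ((J r.m).neg_mem (hXJ g))]
  have hcmp : ∀ g g' h h', X g - X g' ∈ I → X h - X h' ∈ I → X (g * h) - X (g' * h') ∈ I := by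
    intro g g' h h' h1 h2
    rw [hmul, hmul]
    exact hcong _ (hGM g) _ (hGM g') _ (hGM h) _ (hGM h') h1 h2
  have hX1 : X 1 = 0 := by
    rw [hX]
    simp only
    rw [map_one, lg_one]
  have hrefl : ∀ g, X g - X g ∈ I := fun g => by
    rw [sub_self]
    exact I.zero_mem
  let N : Subgroup G :=
    { carrier := {g | X g ∈ I}
      one_mem' := by
        change X 1 ∈ I
        rw [hX1]
        exact I.zero_mem
      mul_mem' := by
        intro a b ha hb
        change X (a * b) ∈ I
        have := hcmp a 1 b 1 (by rw [hX1, sub_zero]; exact ha) (by rw [hX1, sub_zero]; exact hb)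
        rwa [mul_one, hX1, sub_zero] at this
      inv_mem' := by
        intro a ha
        change X a⁻¹ ∈ I
        rw [hinvX]
        exact I.neg_mem ha }
  have hN : ∀ g, g ∈ N ↔ X g ∈ I := fun g => Iff.rfl
  refine ⟨N, ⟨?_⟩, hN, ?_⟩
  · intro n hn g
    rw [hN] at hn ⊢
    have h1 := hcmp g g n 1 (hrefl g) (by rw [hX1, sub_zero]; exact hn)
    have h2 := hcmp _ _ _ _ h1 (hrefl g⁻¹)
    rwa [mul_one, mul_inv_cancel, hX1, sub_zero] at h2
  · let f : G ⧸ N → M ⧸ (I.addSubgroupOf M) := Quotient.lift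
      (fun g => (QuotientAddGroup.mk (⟨X g, hGM g⟩ : M) : M ⧸ (I.addSubgroupOf M))) (by
        intro a b hab
        have h1 : a⁻¹ * b ∈ N := QuotientGroup.leftRel_apply.mp hab
        rw [hN] at h1
        change (QuotientAddGroup.mk (⟨X a, hGM a⟩ : M) : M ⧸ (I.addSubgroupOf M)) =
          QuotientAddGroup.mk (⟨X b, hGM b⟩ : M)
        rw [QuotientAddGroup.eq, AddSubgroup.mem_addSubgroupOf]
        have h2 := hcmp a a (a⁻¹ * b) 1 (hrefl a) (by rw [hX1, sub_zero]; exact h1)
        rw [mul_inv_cancel_left, mul_one] at h2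
        change - X a + X b ∈ I
        rw [neg_add_eq_sub]
        exact h2)
    have hf : Function.Injective f := by
      intro a b
      refine Quotient.inductionOn₂ a b ?_
      intro a b hab
      have h1 : (QuotientAddGroup.mk (⟨X a, hGM a⟩ : M) : M ⧸ (I.addSubgroupOf M)) =
          QuotientAddGroup.mk (⟨X b, hGM b⟩ : M) := hab
      rw [QuotientAddGroup.eq, AddSubgroup.mem_addSubgroupOf] at h1
      have h2 : X b - X a ∈ I := by
        have h3 : - X a + X b ∈ I := h1
        rwa [neg_add_eq_sub] at h3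
      apply Quotient.sound
      refine QuotientGroup.leftRel_apply.mpr ?_
      rw [hN]
      have h4 := hcmp a⁻¹ a⁻¹ b a (hrefl a⁻¹) h2
      rwa [inv_mul_cancel, hX1, sub_zero] at h4
    have hfin : Finite (M ⧸ (I.addSubgroupOf M)) := by
      rw [AddSubgroup.relIndex, AddSubgroup.index] at hidx
      exact (Nat.card_ne_zero.mp hidx).2
    have hfinG : Finite (G ⧸ N) := Finite.of_injective f hf
    refine ⟨?_, ?_⟩
    · rw [Subgroup.index]
      exact Nat.card_ne_zero.mpr ⟨inferInstance, hfinG⟩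
    · rw [Subgroup.index, AddSubgroup.relIndex, AddSubgroup.index]
      exact Nat.card_le_card_of_injective f hf

end Pool.Agent.W348.RG
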