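import Pool.Agent.W348.RG.Defs

/-!
Project RG (MP_67ef3c_al): statements of the parts.
-/

set_option autoImplicit false

open Finset TensorProduct

namespace Pool.Agent.W348.RG

attribute [local instance 100] LieRing.ofAssociativeRing

/-! ### Group theory, no matrices -/

/-- ISO: the elements with a power (with exponent in `E`) in `P` form a subgroup -/
def S_iso : Prop :=
  ∀ (K : Type) [Group K] [Group.IsNilpotent K] (P : Subgroup K) (E : Submonoid ℕ), 0 ∉ E →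
    ∀ a b : K, (∃ n ∈ E, a ^ n ∈ P) → (∃ n ∈ E, b ^ n ∈ P) → ∃ n ∈ E, (a * b) ^ n ∈ P

/-- FINP: separation of an element in a quotient of prime power order -/
def S_finp : Prop :=
  ∀ (G : Type) [Group G] [Group.IsNilpotent G] (N : Subgroup G), N.Normal → N.index ≠ 0 →
    ∀ g : G, g ∉ N → ∃ (p j : ℕ) (N' : Subgroup G), p.Prime ∧ N'.Normal ∧ N ≤ N' ∧ g ∉ N' ∧
      N'.index = p ^ j ∧ N'.index ∣ N.index

/-- UTN: unitriangular groups are nilpotent -/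
def S_utn : Prop :=
  ∀ (m : ℕ) (K : Type) [Group K] (f : K →* Mt m), Function.Injective f →
    (∀ k i j, j ≤ i → f k i j = if i = j then 1 else 0) → Group.IsNilpotent K

/-! ### Lie algebras and fields, no matrices -/

/-- JX: from quotients of order at most `p ^ j` for infinitely many primes `p` to an ideal of
codimension at most `j` over some field of characteristic zero -/
def S_jx : Prop :=
  ∀ (L : Type) [LieRing L] [LieAlgebra ℚ L] [Module.Finite ℚ L] (v : L) (j : ℕ) (T : Set ℕ),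
    T.Infinite → (∀ p ∈ T, p.Prime) → ∀ (M I : ℕ → AddSubgroup L),
    (∀ p ∈ T, ∀ q ∈ Rp p, ∀ x ∈ M p, q • x ∈ M p) →
    (∀ p ∈ T, ∀ q ∈ Rp p, ∀ x ∈ I p, q • x ∈ I p) →
    (∀ p ∈ T, I p ≤ M p) →
    (∀ p ∈ T, ∀ x ∈ M p, ∀ y ∈ M p, ⁅x, y⁆ ∈ M p) →
    (∀ p ∈ T, ∀ x ∈ M p, ∀ y ∈ I p, ⁅x, y⁆ ∈ I p) →
    (∀ p ∈ T, (I p).relIndex (M p) ≠ 0 ∧ (I p).relIndex (M p) ≤ p ^ j) →
    (∀ x : L, ∃ p₀, ∀ p ∈ T, p₀ ≤ p → x ∈ M p) →
    (∀ p ∈ T, v ∉ I p) →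
    ∃ (F : Type) (_ : Field F) (_ : Algebra ℚ F) (I' : LieIdeal F (F ⊗[ℚ] L)),
      Module.finrank F (F ⊗[ℚ] L) ≤ Module.finrank F I' + j ∧ (1 : F) ⊗ₜ[ℚ] v ∉ I'

/-- CF: coefficient fields -/
def S_cf : Prop :=
  ∀ (R F : Type) [CommRing R] [Field F] [Algebra ℚ R] [CharZero F] (f : R →+* F),
    Function.Surjective f → (∃ n : ℕ, RingHom.ker f ^ n = ⊥) → ∃ σ : F →+* R, ∀ a, f (σ a) = a

/-- ULT: limits of finite Lie rings of order `p ^ k`, `k ≤ j`, for infinitely many primes `p` -/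
def S_ult : Prop :=
  ∀ (T : Set ℕ), T.Infinite → (∀ p ∈ T, p.Prime) → ∀ (j : ℕ) (A : ℕ → Type)
    [∀ p, LieRing (A p)], (∀ p ∈ T, ∃ k ≤ j, Nat.card (A p) = p ^ k) →
    ∃ (F : Type) (_ : Field F) (_ : Algebra ℚ F) (B : Type) (_ : LieRing B) (_ : LieAlgebra F B)
      (π : (∀ p, A p) →+ B), Module.Finite F B ∧ Module.finrank F B ≤ j ∧
        (∀ x y : ∀ p, A p, π (fun p => ⁅x p, y p⁆) = ⁅π x, π y⁆) ∧
        (∀ x, {p | p ∈ T ∧ x p ≠ 0}.Finite → π x = 0) ∧ ∀ x, (∀ p ∈ T, x p ≠ 0) → π x ≠ 0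

/-- NSS: systems of polynomial equations with rational coefficients -/
def S_nss : Prop :=
  ∀ (n : ℕ) (P : Set (MvPolynomial (Fin n) ℚ)) (F : Type) [Field F] [Algebra ℚ F]
    (x : Fin n → F), (∀ f ∈ P, MvPolynomial.aeval x f = 0) →
    ∃ y : Fin n → AlgebraicClosure ℚ, ∀ f ∈ P, MvPolynomial.aeval y f = 0

/-- the functionals `ℓ i` describe an ideal -/
def IsData {F L : Type} [Field F] [Algebra ℚ F] [LieRing L] [LieAlgebra ℚ L] {c : ℕ}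
    (ℓ : Fin c → (L →ₗ[ℚ] F)) (a : Fin c → Fin c → (L →ₗ[ℚ] F)) : Prop :=
  ∀ i x y, ℓ i ⁅x, y⁆ = ∑ j, a i j y * ℓ j x

/-- DAT: ideals of codimension at most `c` and functionals -/
def S_dat : Prop :=
  ∀ (L F : Type) [LieRing L] [LieAlgebra ℚ L] [Module.Finite ℚ L] [Field F] [Algebra ℚ F]
    (c : ℕ),
    (∀ I : LieIdeal F (F ⊗[ℚ] L), Module.finrank F (F ⊗[ℚ] L) ≤ Module.finrank F I + c →
      ∃ (ℓ : Fin c → (L →ₗ[ℚ] F)) (a : Fin c → Fin c → (L →ₗ[ℚ] F)), IsData ℓ a ∧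
        ∀ z, z ∈ I ↔ ∀ i, LinearMap.liftBaseChange F (ℓ i) z = 0) ∧
    (∀ (ℓ : Fin c → (L →ₗ[ℚ] F)) (a : Fin c → Fin c → (L →ₗ[ℚ] F)), IsData ℓ a →
      ∃ I : LieIdeal F (F ⊗[ℚ] L), Module.finrank F (F ⊗[ℚ] L) ≤ Module.finrank F I + c ∧
        ∀ z, z ∈ I ↔ ∀ i, LinearMap.liftBaseChange F (ℓ i) z = 0)

/-- GAL: Galois descent, existence of one rational vector -/
def S_gal : Prop :=
  ∀ (V : Type) [AddCommGroup V] [Module ℚ V] [Module.Finite ℚ V]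
    (W : Submodule (AlgebraicClosure ℚ) (AlgebraicClosure ℚ ⊗[ℚ] V)), W ≠ ⊥ →
    (∀ σ : AlgebraicClosure ℚ ≃ₐ[ℚ] AlgebraicClosure ℚ, ∀ w ∈ W,
      LinearMap.rTensor V σ.toLinearMap w ∈ W) →
    ∃ v : V, v ≠ 0 ∧ (1 : AlgebraicClosure ℚ) ⊗ₜ[ℚ] v ∈ W

/-- DESC: a rational vector in all ideals of codimension at most `c` over all fields -/
def S_desc : Prop :=
  ∀ (L : Type) [LieRing L] [LieAlgebra ℚ L] [Module.Finite ℚ L] (c : ℕ),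
    Jc ℂ (ℂ ⊗[ℚ] L) c ≠ ⊥ → ∃ v : L, v ≠ 0 ∧
      ∀ (F : Type) [Field F] [Algebra ℚ F] (I : LieIdeal F (F ⊗[ℚ] L)),
        Module.finrank F (F ⊗[ℚ] L) ≤ Module.finrank F I + c → (1 : F) ⊗ₜ[ℚ] v ∈ I

/-- NF: ideals with zero intersection over a number field, in terms of functionals -/
def S_nf : Prop :=
  ∀ (L : Type) [LieRing L] [LieAlgebra ℚ L] [Module.Finite ℚ L] (c : ℕ),
    Jc ℂ (ℂ ⊗[ℚ] L) c = ⊥ → ∃ (K : Type) (_ : Field K) (_ : NumberField K) (r : ℕ)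
      (ℓ : Fin r → Fin c → (L →ₗ[ℚ] K)) (a : Fin r → Fin c → Fin c → (L →ₗ[ℚ] K)),
      (∀ s, IsData (ℓ s) (a s)) ∧ ∀ x, (∀ s i, ℓ s i x = 0) → x = 0

/-! ### Number theory -/

/-- NT: small primes of degree one not dividing a given algebraic integer -/
def S_nt : Prop :=
  ∀ (K : Type) [Field K] [NumberField K] (D : ℕ), 0 < D → ∃ C : ℝ, 0 < C ∧
    ∀ α : NumberField.RingOfIntegers K, α ≠ 0 → ∃ p : ℕ, p.Prime ∧ ¬ p ∣ D ∧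
      (p : ℝ) ≤ C * (1 + Real.log ((Algebra.norm ℤ α).natAbs : ℝ)) ∧
      ∃ φ : NumberField.RingOfIntegers K →+* ZMod p, φ α ≠ 0

/-! ### Matrices: exponential and logarithm -/

/-- EXPG: the exponential and logarithm series of nilpotent elements are inverse to each other -/
def S_expg : Prop :=
  ∀ (A : Type) [Ring A] [Algebra ℚ A] (m : ℕ) (u : A), u ^ m = 0 →
    (∑ k ∈ range m, ((k.factorial : ℚ)⁻¹) •
      (∑ j ∈ range m, ((-1 : ℚ) ^ (j + 1) / j) • u ^ j) ^ k = 1 + u) ∧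
    (∑ j ∈ range m, ((-1 : ℚ) ^ (j + 1) / j) •
      ((∑ k ∈ range m, ((k.factorial : ℚ)⁻¹) • u ^ k) - 1) ^ j = u)

/-- DEXP: the derivative of the exponential of a nilpotent element -/
def S_dexp : Prop :=
  ∀ (A : Type) [Ring A] [Algebra ℚ A] (D : A →ₗ[ℚ] A), (∀ x y, D (x * y) = D x * y + x * D y) →
    ∀ (f : A) (N : ℕ), f ^ N = 0 →
    D (∑ k ∈ range N, ((k.factorial : ℚ)⁻¹) • f ^ k) =
      (∑ k ∈ range N, ((k.factorial : ℚ)⁻¹) • f ^ k) *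
        ∑ k ∈ range (2 * N), ((-1 : ℚ) ^ k / ((k + 1).factorial)) •
          (fun z => f * z - z * f)^[k] (D f)

/-- EXP: basic properties of `ex` and `lg` -/
def S_exp : Prop :=
  ∀ m : ℕ, (∀ x ∈ J m, lg (ex x) = x ∧ ex x - 1 ∈ J m) ∧
    (∀ g : Mt m, g - 1 ∈ J m → ex (lg g) = g ∧ lg g ∈ J m) ∧
    (∀ x ∈ J m, ∀ s t : ℚ, ex (s • x) * ex (t • x) = ex ((s + t) • x))

/-- BCH: the group law of `exp M` for a Lie ring `M` over a large coefficient ring -/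
def S_bch : Prop :=
  ∀ (m : ℕ) (R : Subring ℚ), Inv m R → ∀ M : AddSubgroup (Mt m), IsLie R M →
    (∀ x ∈ M, ∀ y ∈ M, lg (ex x * ex y) ∈ M) ∧
    ∀ I : AddSubgroup (Mt m), IsIdl R M I →
      (∀ x ∈ M, ∀ x' ∈ M, ∀ y ∈ M, ∀ y' ∈ M, x - x' ∈ I → y - y' ∈ I →
        lg (ex x * ex y) - lg (ex x' * ex y') ∈ I) ∧
      ((∀ x ∈ M, ∀ y ∈ M, x * y - y * x ∈ I) →
        ∀ x ∈ M, ∀ y ∈ M, lg (ex x * ex y) - (x + y) ∈ I)

/-- VAN: the Lie bracket from group commutators -/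
def S_van : Prop :=
  ∀ (m : ℕ) (R : Subring ℚ), Inv m R → ∀ A : AddSubgroup (Mt m),
    (∀ r ∈ R, ∀ x ∈ A, r • x ∈ A) → ∀ x ∈ J m, ∀ y ∈ J m,
    (∀ s t : ℕ, s ≤ Bd m → t ≤ Bd m →
      lg (ex ((s : ℚ) • x) * ex ((t : ℚ) • y) * ex (-(s : ℚ) • x) * ex (-(t : ℚ) • y)) ∈ A) →
    x * y - y * x ∈ A

/-- LZ: the logarithms of an `R`-powered group form a Lie ring -/
def S_lz : Prop :=
  ∀ (m : ℕ) (R : Subring ℚ), Inv m R → ∀ H : Submonoid (Mt m), (∀ h ∈ H, h - 1 ∈ J m) →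
    (∀ h ∈ H, ∀ r ∈ R, ex (r • lg h) ∈ H) →
    ∃ A : AddSubgroup (Mt m), (∀ x, x ∈ A ↔ x ∈ J m ∧ ex x ∈ H) ∧ IsLie R A

/-- HULL: the logarithms of the `E`-isolator of a group of unitriangular matrices -/
def S_hull : Prop :=
  ∀ (G : Type) [Group G] (r : UniRep G) (P : Subgroup G) (E : Submonoid ℕ) (R : Subring ℚ),
    0 ∉ E → (∀ n ∈ E, ((n : ℕ) : ℚ)⁻¹ ∈ R) → (∀ q ∈ R, ∃ n ∈ E, ∃ z : ℤ, (n : ℚ) * q = z) →
    Inv r.m R → ∃ A : AddSubgroup (Mt r.m),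
      (∀ x, x ∈ A ↔ x ∈ J r.m ∧ ∃ n ∈ E, ∃ g ∈ P, ex ((n : ℚ) • x) = r.ρ g) ∧ IsLie R A

/-- MAL: every element of the Mal'cev Lie algebra has a multiple in `log G` -/
def S_mal : Prop :=
  ∀ (G : Type) [Group G] (r : UniRep G), ∀ x ∈ malcev r, ∃ n : ℕ, 0 < n ∧
    ∃ g : G, (n : ℚ) • x = lg (r.ρ g)

/-- K1: the ideal belonging to a normal subgroup of prime power index -/
def S_k1 : Prop :=
  ∀ (G : Type) [Group G] (r : UniRep G) (p j : ℕ), p.Prime → Bd r.m < p → ∀ N : Subgroup G,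
    N.Normal → N.index = p ^ j → ∃ M I : AddSubgroup (Mt r.m), IsLie (Rp p) M ∧
      IsIdl (Rp p) M I ∧ (∀ g, lg (r.ρ g) ∈ M) ∧ (∀ g, lg (r.ρ g) ∈ I ↔ g ∈ N) ∧
      I.relIndex M ≠ 0 ∧ I.relIndex M ≤ p ^ j ∧
      ∀ x ∈ M, ∃ n : ℕ, 0 < n ∧ ∃ g : G, (n : ℚ) • x = lg (r.ρ g)

/-- NRM: the normal subgroup belonging to an ideal -/
def S_nrm : Prop :=
  ∀ (G : Type) [Group G] (r : UniRep G) (p : ℕ), p.Prime → Bd r.m < p →
    ∀ M I : AddSubgroup (Mt r.m), IsLie (Rp p) M → IsIdl (Rp p) M I →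
    (∀ g, lg (r.ρ g) ∈ M) → I.relIndex M ≠ 0 → ∃ N : Subgroup G, N.Normal ∧
      (∀ g, g ∈ N ↔ lg (r.ρ g) ∈ I) ∧ N.index ≠ 0 ∧ N.index ≤ I.relIndex M

/-- HT: the entries of logarithms of words -/
def S_ht : Prop :=
  ∀ (m : ℕ) (S : Finset (Mt m)), (∀ A ∈ S, A - 1 ∈ J m) → ∃ C D : ℕ, 0 < D ∧
    ∀ l : List (Mt m), (∀ A ∈ l, A ∈ S) → ∀ i j, |lg l.prod i j| ≤ C * (l.length + 1) ^ C ∧
      ∃ z : ℤ, (D : ℚ) * lg l.prod i j = z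

/-- LAT: coordinates of logarithms with respect to a basis of the Mal'cev Lie algebra -/
def S_lat : Prop :=
  ∀ (G : Type) [Group G] (r : UniRep G) (S : Finset G), Subgroup.closure (S : Set G) = ⊤ →
    ∃ (d : ℕ) (e : Module.Basis (Fin d) ℚ (malcev r)) (C D : ℕ), 0 < D ∧
      (∀ i j k, ∃ z : ℤ, (D : ℚ) * e.repr ⁅e i, e j⁆ k = z) ∧
      ∀ n, ∀ g ∈ ball (S : Set G) n, ∃ h : lg (r.ρ g) ∈ malcev r,
        ∀ i, |e.repr ⟨lg (r.ρ g), h⟩ i| ≤ C * (n + 1) ^ C ∧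
          ∃ z : ℤ, (D : ℚ) * e.repr ⟨lg (r.ρ g), h⟩ i = z

/-! ### Assembly -/

/-- UPG: the upper bound -/
def S_upg : Prop :=
  ∀ (G : Type) [Group G] (r : UniRep G) (S : Finset G), Subgroup.closure (S : Set G) = ⊤ →
    ∀ c : ℕ, Jc ℂ (ℂ ⊗[ℚ] malcev r) c = ⊥ → ∃ C : ℝ, 0 < C ∧ ∀ n, ∀ g ∈ ball (S : Set G) n,
      g ≠ 1 → ∃ N : Subgroup G, N.Normal ∧ N.index ≠ 0 ∧ g ∉ N ∧
        (N.index : ℝ) ≤ C * (1 + Real.log (n + 1)) ^ c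

/-- KILL: an element which lies in all normal subgroups of small prime power index -/
def S_kill : Prop :=
  ∀ (G : Type) [Group G] (r : UniRep G) (c : ℕ), Jc ℂ (ℂ ⊗[ℚ] malcev r) c ≠ ⊥ →
    ∃ g : G, g ≠ 1 ∧ ∃ p₀ : ℕ, ∀ p, p₀ ≤ p → p.Prime → ∀ j ≤ c, ∀ N : Subgroup G,
      N.Normal → N.index = p ^ j → g ∈ N

/-- LOW: the lower bound -/
def S_low : Prop :=
  ∀ (G : Type) [Group G] [Group.IsNilpotent G] (S : Finset G),
    Subgroup.closure (S : Set G) = ⊤ →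
    (∀ g : G, g ≠ 1 → ∃ N : Subgroup G, N.Normal ∧ N.index ≠ 0 ∧ g ∉ N) →
    (∀ x : G, ∀ n : ℕ, 0 < n → x ^ n = 1 → x = 1) → ∀ c : ℕ,
    (∃ g : G, g ≠ 1 ∧ ∃ p₀ : ℕ, ∀ p, p₀ ≤ p → p.Prime → ∀ j ≤ c, ∀ N : Subgroup G,
      N.Normal → N.index = p ^ j → g ∈ N) →
    ∃ ε : ℝ, 0 < ε ∧ ∀ n : ℕ, 1 ≤ n → ε * (1 + Real.log n) ^ (c + 1) ≤ RF (S : Set G) n

/-- JEN: every finitely generated torsion-free nilpotent group has a faithful representation -/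
def S_jen : Prop :=
  ∀ (G : Type) [Group G] [Group.IsNilpotent G] [Group.FG G],
    (∀ x : G, ∀ n : ℕ, 0 < n → x ^ n = 1 → x = 1) → Nonempty (UniRep G)

end Pool.Agent.W348.RG
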