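import Pool.Agent.W348.RG.Fin
import Pool.Agent.W348.RG.Jen
import Pool.Agent.W348.RG.Lat
import Pool.Agent.W348.RG.Nrm
import Pool.Agent.W348.RG.Finp
import Pool.Agent.W348.RG.Iso
import Pool.Agent.W597.RG.Utn
import Pool.Agent.W597.RG.Jx
import Pool.Agent.W376.RG.Ult
import Pool.Agent.W216.RG.Cf
import Pool.Agent.W216.RG.Mal
import Pool.Agent.W479.RG.Expg
import Pool.Agent.W479.RG.Bch
import Pool.Agent.W479.RG.Van
import Pool.Agent.W479.RG.Lz
import Pool.Agent.W479.RG.Hull
import Pool.Agent.W441.RG.K1
import Pool.Agent.W441.RG.HT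
import Pool.Agent.W135.RG.Upg
import Pool.Agent.W613.RG.Low
import Pool.Agent.W959.RG.Dat
import Pool.Agent.W959.RG.Desc
import Pool.Agent.W959.RG.Kill
import Pool.Agent.W320.RG.Gal
import Pool.Agent.W64.RG.Nt

/-!
Project RG (MP_67ef3c_al): all parts together.
-/

set_option autoImplicit false

namespace Pool.Agent.W348.RG

theorem all_exp : S_exp := exp W479.RG.expg

theorem all_bch : S_bch := W479.RG.bch W479.RG.expg W479.RG.dexp

theorem all_van : S_van := W479.RG.van all_exp

theorem all_lz : S_lz := W479.RG.lz all_exp all_bch all_van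

theorem all_utn : S_utn := W597.RG.utn

theorem all_hull (iso : S_iso) : S_hull := W479.RG.hull all_exp iso all_utn all_lz

theorem all_mal (iso : S_iso) : S_mal := W216.RG.mal all_exp (all_hull iso)

theorem all_k1 (iso : S_iso) : S_k1 := W441.RG.k1 all_exp all_bch all_van (all_hull iso)

theorem all_ult : S_ult := W376.RG.ult W216.RG.cf

theorem all_jx : S_jx := W597.RG.jx all_ult

theorem all_nf : S_nf := W959.RG.nf W216.RG.nss W959.RG.dat

theorem all_desc : S_desc := W959.RG.desc W216.RG.nss W959.RG.dat W320.RG.gal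

theorem all_kill (iso : S_iso) : S_kill :=
  W959.RG.kill all_exp all_desc (all_mal iso) (all_k1 iso) all_jx

theorem all_lat : S_lat := lat W441.RG.ht

theorem all_nrm : S_nrm := nrm all_exp all_bch

theorem all_upg : S_upg := W135.RG.upg all_exp all_nf W64.RG.nt all_lat all_nrm

theorem all_low : S_low := W613.RG.low finp

theorem all_bnd (iso : S_iso) : S_bnd := bnd all_exp all_utn all_upg (all_kill iso) all_low

theorem all_cmp (iso : S_iso) : S_cmp := cmp all_exp (all_bnd iso)

end Pool.Agent.W348.RG
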