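import Pool.Agent.W348.RG.Stms

/-!
Project RG (MP_67ef3c_al), JEN: polynomial functions on sets with a right action.
-/

set_option autoImplicit false

open Finset

namespace Pool.Agent.W348.RG

/-- functions killed by all products of `n` differences along the right action `a` -/
def U {X G : Type} (a : X → G → X) : ℕ → Submodule ℚ (X → ℚ)
  | 0 => ⊥
  | n + 1 =>
    { carrier := {f | ∀ g, (fun x => f (a x g) - f x) ∈ U a n}
      add_mem' := by
        intro f h hf hh g
        have := (U a n).add_mem (hf g) (hh g)
        refine (congrArg (· ∈ U a n) ?_).mp this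
        funext x
        simp only [Pi.add_apply]
        ring
      zero_mem' := by
        intro g
        have := (U a n).zero_mem
        refine (congrArg (· ∈ U a n) ?_).mp this
        funext x
        simp
      smul_mem' := by
        intro c f hf g
        have := (U a n).smul_mem c (hf g)
        refine (congrArg (· ∈ U a n) ?_).mp this
        funext x
        simp only [Pi.smul_apply, smul_eq_mul]
        ring }

theorem mem_U_zero {X G : Type} {a : X → G → X} {f : X → ℚ} : f ∈ U a 0 ↔ f = 0 :=
  Submodule.mem_bot ℚ

theorem mem_U_succ {X G : Type} {a : X → G → X} {n : ℕ} {f : X → ℚ} :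
    f ∈ U a (n + 1) ↔ ∀ g, (fun x => f (a x g) - f x) ∈ U a n := Iff.rfl

theorem U_le_succ {X G : Type} (a : X → G → X) (n : ℕ) : U a n ≤ U a (n + 1) := by
  induction n with
  | zero =>
    intro f hf
    rw [mem_U_zero] at hf
    rw [hf]
    exact Submodule.zero_mem _
  | succ n ih => exact fun f hf g => ih (hf g)

theorem U_mono {X G : Type} (a : X → G → X) {n k : ℕ} (h : n ≤ k) : U a n ≤ U a k :=
  monotone_nat_of_le_succ (U_le_succ a) h

/-- translates of polynomial functions are polynomial -/
theorem U_trans {X G : Type} (a : X → G → X) (n : ℕ) {f : X → ℚ} (hf : f ∈ U a n) (g : G) :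
    (fun x => f (a x g)) ∈ U a n := by
  cases n with
  | zero =>
    rw [mem_U_zero] at hf ⊢
    rw [hf]
    rfl
  | succ n =>
    have h1 := U_le_succ a n (hf g)
    have h2 := (U a (n + 1)).add_mem h1 hf
    refine (congrArg (· ∈ U a (n + 1)) ?_).mp h2
    funext x
    simp

/-- pulling back along an equivariant map -/
theorem U_comp {X Y G K : Type} {a : X → G → X} {b : Y → K → Y} (q : X → Y) (φ : G → K)
    (h : ∀ x g, q (a x g) = b (q x) (φ g)) (n : ℕ) {f : Y → ℚ} (hf : f ∈ U b n) :
    (fun x => f (q x)) ∈ U a n := by
  induction n generalizing f with
  | zero =>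
    rw [mem_U_zero] at hf ⊢
    rw [hf]
    rfl
  | succ n ih =>
    intro g
    have := ih (hf (φ g))
    refine (congrArg (· ∈ U a n) ?_).mp this
    funext x
    simp only [h]

/-- the key lemma: if `G` is nilpotent, `H` is normal in `G`, and the `H`-invariant functions
are `G`-invariant, then functions which are polynomial for `H` are polynomial for `G` -/
theorem U_normal {X G : Type} [Group G] [Group.IsNilpotent G] (a : X → G → X)
    (hmul : ∀ x g h, a (a x g) h = a x (g * h)) (hone : ∀ x, a x 1 = x) (H : Subgroup G)
    (hH : H.Normal) (hfix : ∀ f : X → ℚ, (∀ x, ∀ h ∈ H, f (a x h) = f x) →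
      ∀ x g, f (a x g) = f x) (n : ℕ) :
    ∃ k, U (fun x (h : H) => a x h) n ≤ U a k := by
  obtain ⟨c, hc⟩ := (Group.isNilpotent_iff G).mp inferInstance
  induction n with
  | zero => exact ⟨0, fun f hf => hf⟩
  | succ n ih =>
    obtain ⟨k, hk⟩ := ih
    have key : ∀ s, ∀ f : X → ℚ, (∀ i ≤ c, ∀ h ∈ H, h ∈ Subgroup.upperCentralSeries G i →
        (fun x => f (a x h) - f x) ∈ U a (s + i - c)) → f ∈ U a (s + 1) := by
      intro s
      induction s with
      | zero =>
        intro f hf
        have h1 : ∀ x, ∀ h ∈ H, f (a x h) = f x := by
          intro x h hh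
          have h2 := hf c le_rfl h hh (by rw [hc]; exact Subgroup.mem_top h)
          rw [Nat.zero_add, Nat.sub_self, mem_U_zero] at h2
          exact sub_eq_zero.mp (congrFun h2 x)
        intro g
        rw [mem_U_zero]
        funext x
        exact sub_eq_zero.mpr (hfix f h1 x g)
      | succ s ihs =>
        intro f hf g
        refine ihs _ ?_
        intro i hi h hh hhi
        -- commutator
        have hu : h⁻¹ * g⁻¹ * h * g ∈ H := by
          have := hH.conj_mem h hh g⁻¹
          rw [inv_inv] at this
          have h3 := H.mul_mem (H.inv_mem hh) this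
          refine (congrArg (· ∈ H) ?_).mp h3
          group
        -- difference of the difference
        have hbase : (fun x => f (a x h) - f x) ∈ U a (s + 1 + i - c) := hf i hi h hh hhi
        have hD : (fun x => (f (a (a x g) h) - f (a (a x g) 1)) - (f (a x h) - f x)) ∈
            U a (s + i - c) := by
          rcases Nat.lt_or_ge (s + i) c with hlt | hge
          · have h4 : s + 1 + i - c = 0 ∨ s + 1 + i - c = 0 + (s + i - c) + 1 := by omega
            have h5 : s + 1 + i - c = 0 := by omega
            rw [h5, mem_U_zero] at hbase
            have h6 : s + i - c = 0 := by omega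
            rw [h6, mem_U_zero]
            funext x
            have h7 := congrFun hbase x
            have h8 := congrFun hbase (a x g)
            simp only [Pi.zero_apply] at h7 h8 ⊢
            rw [hone, h7, h8, sub_self]
          · have h5 : s + 1 + i - c = (s + i - c) + 1 := by omega
            rw [h5] at hbase
            have := hbase g
            refine (congrArg (· ∈ U a (s + i - c)) ?_).mp this
            funext x
            simp only [hone]
        have hE : (fun x => f (a (a x (g * h)) (h⁻¹ * g⁻¹ * h * g)) - f (a x (g * h))) ∈
            U a (s + i - c) := by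
          rcases Nat.eq_zero_or_pos i with hi0 | hi0
          · have h9 : h = 1 := by
              rw [hi0, Subgroup.upperCentralSeries_zero, Subgroup.mem_bot] at hhi
              exact hhi
            have h10 : h⁻¹ * g⁻¹ * h * g = 1 := by
              rw [h9]
              group
            rw [h10]
            have := (U a (s + i - c)).zero_mem
            refine (congrArg (· ∈ U a (s + i - c)) ?_).mp this
            funext x
            simp [hone]
          · obtain ⟨i', rfl⟩ : ∃ i', i = i' + 1 := ⟨i - 1, by omega⟩
            have h11 : h⁻¹ * g⁻¹ * h * g ∈ Subgroup.upperCentralSeries G i' := by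
              have h12 := (Subgroup.mem_upperCentralSeries_succ_iff (n := i')
                (x := h⁻¹)).mp (Subgroup.inv_mem _ hhi) g⁻¹
              rw [commutatorElement_def, inv_inv, inv_inv] at h12
              exact h12
            have h13 := hf i' (by omega) _ hu h11
            have h14 := U_trans a _ h13 (g * h)
            have h15 : s + 1 + i' - c = s + (i' + 1) - c := by omega
            rw [h15] at h14
            exact h14
        have hsum := (U a (s + i - c)).add_mem hD hE
        refine (congrArg (· ∈ U a (s + i - c)) ?_).mp hsum
        funext x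
        simp only [Pi.add_apply, hmul, mul_one]
        have h16 : g * h * (h⁻¹ * g⁻¹ * h * g) = h * g := by group
        rw [h16]
        ring
    refine ⟨k + c + 1, fun f hf => key (k + c) f ?_⟩
    intro i hi h hh hhi
    have h17 := hk (hf ⟨h, hh⟩)
    exact U_mono a (by omega) h17

end Pool.Agent.W348.RG
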