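import Pool.Agent.W348.RG.Pol
import Pool.Agent.Helper111.EN.Basic

/-!
Project RG (MP_67ef3c_al), JEN: polynomial functions separate points of finitely generated
torsion-free nilpotent groups.
-/

set_option autoImplicit false

open Finset

namespace Pool.Agent.W348.RG

/-- polynomial functions of some degree separate all elements from the identity -/
def Sep (G : Type) [Group G] : Prop :=
  ∃ n, ∀ g : G, g ≠ 1 → ∃ f ∈ U (fun x y : G => x * y) n, f g ≠ f 1

/-- extension by an infinite cyclic group -/
theorem sep_step {G : Type} [Group G] [Group.IsNilpotent G] (φ : G →* Multiplicative ℤ)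
    (hφ : Function.Surjective φ) (hs : Sep φ.ker) : Sep G := by
  obtain ⟨t, ht⟩ := hφ (Multiplicative.ofAdd 1)
  obtain ⟨n, hn⟩ := hs
  set z : G → ℤ := fun g => Multiplicative.toAdd (φ g) with hz
  have hzmul : ∀ g h, z (g * h) = z g + z h := by
    intro g h
    simp only [hz, map_mul, toAdd_mul]
  have hz1 : z 1 = 0 := by simp [hz]
  have hzker : ∀ g, g ∈ φ.ker ↔ z g = 0 := by
    intro g
    rw [MonoidHom.mem_ker, hz]
    exact toAdd_eq_zero.symm
  have hzt : ∀ k : ℤ, z (t ^ k) = k := by
    intro k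
    simp only [hz, map_zpow, ht, toAdd_zpow, toAdd_ofAdd, smul_eq_mul, mul_one]
  have hmem : ∀ (y : φ.ker) (g : G), t ^ (-z g) * y * g ∈ φ.ker := by
    intro y g
    rw [hzker, hzmul, hzmul, hzt, (hzker y).mp y.2]
    ring
  set a : φ.ker → G → φ.ker := fun y g => ⟨t ^ (-z g) * y * g, hmem y g⟩ with ha
  have hmul : ∀ x g h, a (a x g) h = a x (g * h) := by
    intro x g h
    apply Subtype.ext
    simp only [ha, hzmul, neg_add_rev, zpow_add, mul_assoc]
  have hone : ∀ x, a x 1 = x := by
    intro x
    apply Subtype.ext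
    simp [ha, hz1]
  have hker : ∀ (x : φ.ker) (h : φ.ker), a x h = x * h := by
    intro x h
    apply Subtype.ext
    simp [ha, (hzker h).mp h.2]
  have hfix : ∀ f : φ.ker → ℚ, (∀ x, ∀ h ∈ φ.ker, f (a x h) = f x) →
      ∀ x g, f (a x g) = f x := by
    intro f hf x g
    have h1 : ∀ y, f y = f 1 := by
      intro y
      have := hf 1 y y.2
      rwa [hker, one_mul] at this
    rw [h1 (a x g), h1 x]
  obtain ⟨k, hk⟩ := U_normal a hmul hone φ.ker inferInstance hfix n
  have hfun : (fun (x : φ.ker) (h : φ.ker) => a x h) = fun x h => x * h := by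
    funext x h
    exact hker x h
  rw [hfun] at hk
  refine ⟨max k 2, fun g hg => ?_⟩
  by_cases hg0 : z g = 0
  · have hgk : g ∈ φ.ker := (hzker g).mpr hg0
    obtain ⟨f, hf, hne⟩ := hn ⟨g, hgk⟩ (fun h => hg (congrArg Subtype.val h))
    refine ⟨fun x => f (a 1 x), U_mono _ (le_max_left k 2) ?_, ?_⟩
    · exact U_comp (a := fun x y : G => x * y) (b := a) (fun x => a 1 x) id
        (fun x g => (hmul 1 x g).symm) k (hk hf)
    · have h1 : a 1 g = ⟨g, hgk⟩ := by
        have := hker 1 ⟨g, hgk⟩
        rwa [one_mul] at this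
      simp only [h1, hone]
      exact hne
  · refine ⟨fun x => (z x : ℚ), U_mono _ (le_max_right k 2) ?_, ?_⟩
    · intro h h'
      rw [mem_U_zero]
      funext x
      simp only [hzmul, Int.cast_add, Pi.zero_apply]
      ring
    · simp only [hz1, Int.cast_zero]
      exact_mod_cast hg0

/-- groups with a finite subnormal series with infinite cyclic factors -/
def PZ : ℕ → ∀ (G : Type) [Group G], Prop
  | 0, G, _ => Subsingleton G
  | n + 1, G, _ => ∃ φ : G →* Multiplicative ℤ, Function.Surjective φ ∧ PZ n φ.ker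

theorem sep_of_PZ (n : ℕ) : ∀ (G : Type) [Group G] [Group.IsNilpotent G], PZ n G → Sep G := by
  induction n with
  | zero =>
    intro G _ _ h
    have : Subsingleton G := h
    exact ⟨0, fun g hg => absurd (Subsingleton.elim g 1) hg⟩
  | succ n ih =>
    rintro G _ _ ⟨φ, hφ, h⟩
    exact sep_step φ hφ (ih φ.ker h)

theorem PZ_of_bijective (n : ℕ) : ∀ (G K : Type) [Group G] [Group K] (f : G →* K),
    Function.Bijective f → PZ n G → PZ n K := by
  induction n with
  | zero =>
    intro G K _ _ f hf h
    have : Subsingleton G := h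
    exact hf.2.subsingleton
  | succ n ih =>
    rintro G K _ _ f hf ⟨φ, hφ, h⟩
    let e := MulEquiv.ofBijective f hf
    have he : ∀ x, e x = f x := fun x => rfl
    refine ⟨φ.comp e.symm.toMonoidHom, hφ.comp e.symm.surjective, ?_⟩
    have hm : ∀ x : φ.ker, f x ∈ (φ.comp e.symm.toMonoidHom).ker := by
      intro x
      rw [MonoidHom.mem_ker, MonoidHom.comp_apply]
      change φ (e.symm (e x)) = 1
      rw [e.symm_apply_apply]
      exact x.2
    refine ih φ.ker _ ((f.comp φ.ker.subtype).codRestrict _ hm) ⟨?_, ?_⟩ h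
    · intro x y hxy
      have := congrArg Subtype.val hxy
      exact Subtype.ext (hf.1 this)
    · intro y
      have hy := y.2
      rw [MonoidHom.mem_ker, MonoidHom.comp_apply] at hy
      refine ⟨⟨e.symm y, hy⟩, ?_⟩
      apply Subtype.ext
      change f (e.symm y) = y
      rw [← he, e.apply_symm_apply]

theorem PZ_ext (m n : ℕ) : ∀ (G Q : Type) [Group G] [Group Q] (f : G →* Q),
    Function.Surjective f → PZ m f.ker → PZ n Q → PZ (m + n) G := by
  induction n with
  | zero =>
    intro G Q _ _ f hf h1 h2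
    have : Subsingleton Q := h2
    refine PZ_of_bijective m f.ker G f.ker.subtype ⟨f.ker.subtype_injective, ?_⟩ h1
    intro x
    exact ⟨⟨x, Subsingleton.elim _ _⟩, rfl⟩
  | succ n ih =>
    rintro G Q _ _ f hf h1 ⟨φ, hφ, h2⟩
    refine ⟨φ.comp f, hφ.comp hf, ?_⟩
    have hm : ∀ x : (φ.comp f).ker, f x ∈ φ.ker := fun x => x.2
    refine ih (φ.comp f).ker φ.ker ((f.comp (φ.comp f).ker.subtype).codRestrict _ hm) ?_ ?_ h2
    · rintro ⟨y, hy⟩
      obtain ⟨x, rfl⟩ := hf y
      exact ⟨⟨x, hy⟩, rfl⟩
    · have hm2 : ∀ x : f.ker, (x : G) ∈ (φ.comp f).ker := by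
        intro x
        rw [MonoidHom.mem_ker, MonoidHom.comp_apply, (MonoidHom.mem_ker).mp x.2, map_one]
      have hm3 : ∀ x : f.ker, (f.ker.subtype.codRestrict _ hm2) x ∈
          ((f.comp (φ.comp f).ker.subtype).codRestrict φ.ker hm).ker := by
        intro x
        rw [MonoidHom.mem_ker]
        exact Subtype.ext x.2
      refine PZ_of_bijective m f.ker _ ((f.ker.subtype.codRestrict _ hm2).codRestrict _ hm3)
        ⟨?_, ?_⟩ h1
      · intro x y hxy
        have := congrArg Subtype.val (congrArg Subtype.val hxy)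
        exact Subtype.ext this
      · rintro ⟨⟨x, hx⟩, hx'⟩
        rw [MonoidHom.mem_ker] at hx'
        have := congrArg Subtype.val hx'
        exact ⟨⟨x, this⟩, rfl⟩

theorem PZ_free (r : ℕ) : ∀ (G : Type) [Group G] (f : G →* Multiplicative (Fin r → ℤ)),
    Function.Bijective f → PZ r G := by
  induction r with
  | zero =>
    intro G _ f hf
    have : Subsingleton (Multiplicative (Fin 0 → ℤ)) :=
      inferInstanceAs (Subsingleton (Fin 0 → ℤ))
    exact hf.1.subsingleton
  | succ r ih =>
    intro G _ f hf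
    let ev : Multiplicative (Fin (r + 1) → ℤ) →* Multiplicative ℤ :=
      AddMonoidHom.toMultiplicative (Pi.evalAddMonoidHom (fun _ : Fin (r + 1) => ℤ) 0)
    let tl : Multiplicative (Fin (r + 1) → ℤ) →* Multiplicative (Fin r → ℤ) :=
      AddMonoidHom.toMultiplicative
        { toFun := fun v i => v i.succ
          map_zero' := rfl
          map_add' := fun _ _ => rfl }
    refine ⟨ev.comp f, ?_, ?_⟩
    · intro y
      obtain ⟨x, hx⟩ := hf.2 (Multiplicative.ofAdd (fun _ => Multiplicative.toAdd y))
      refine ⟨x, ?_⟩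
      rw [MonoidHom.comp_apply, hx]
      rfl
    · refine ih _ (tl.comp (f.comp (ev.comp f).ker.subtype)) ⟨?_, ?_⟩
      · intro x y hxy
        have hx : (Multiplicative.toAdd (f x)) 0 = 0 := x.2
        have hy : (Multiplicative.toAdd (f y)) 0 = 0 := y.2
        have hs : ∀ i : Fin r, (Multiplicative.toAdd (f x)) i.succ =
            (Multiplicative.toAdd (f y)) i.succ := fun i =>
          congrFun (congrArg Multiplicative.toAdd hxy) i
        apply Subtype.ext
        apply hf.1
        apply Multiplicative.toAdd.injective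
        funext i
        refine Fin.cases ?_ (fun i => hs i) i
        rw [hx, hy]
      · intro v
        obtain ⟨x, hx⟩ := hf.2 (Multiplicative.ofAdd (Fin.cons 0 (Multiplicative.toAdd v)))
        refine ⟨⟨x, ?_⟩, ?_⟩
        · rw [MonoidHom.mem_ker, MonoidHom.comp_apply, hx]
          rfl
        · rw [MonoidHom.comp_apply, MonoidHom.comp_apply]
          change tl (f x) = v
          rw [hx]
          rfl

theorem PZ_comm (A : Type) [CommGroup A] [Group.FG A]
    (h : ∀ x : A, ∀ n : ℕ, 0 < n → x ^ n = 1 → x = 1) : ∃ r, PZ r A := by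
  have h1 : AddGroup.FG (Additive A) := GroupFG.iff_add_fg.1 inferInstance
  have h2 : Module.Finite ℤ (Additive A) := Module.Finite.iff_addGroup_fg.2 h1
  have h3 : Module.IsTorsionFree ℤ (Additive A) := by
    constructor
    intro r hr x y hxy
    have hr0 : r ≠ 0 := hr.ne_zero
    have h5 : r • (x - y) = 0 := by
      rw [smul_sub]
      exact sub_eq_zero.mpr hxy
    have h6 : (r.natAbs) • (x - y) = 0 := by
      rw [← natCast_zsmul]
      rcases Int.natAbs_eq r with h7 | h7
      · rw [← h7]
        exact h5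
      · have h8 : ((r.natAbs : ℤ)) = - r := by omega
        rw [h8, neg_smul, h5, neg_zero]
    have h9 : (Additive.toMul (x - y)) ^ r.natAbs = 1 := h6
    have h10 := h _ _ (Int.natAbs_pos.mpr hr0) h9
    exact sub_eq_zero.mp (show x - y = 0 from h10)
  have h4 : Module.Free ℤ (Additive A) := inferInstance
  let b := Module.finBasis ℤ (Additive A)
  refine ⟨_, PZ_free (Module.finrank ℤ (Additive A)) A
    (AddMonoidHom.toMultiplicativeRight (b.equivFun.toAddEquiv.toAddMonoidHom)) ?_⟩
  exact b.equivFun.bijective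

theorem PZ_comm' (A : Type) [hA : Group A] (hf : Group.FG A) (hc : ∀ x y : A, x * y = y * x)
    (h : ∀ x : A, ∀ n : ℕ, 0 < n → x ^ n = 1 → x = 1) : ∃ r, PZ r A := by
  let _ : CommGroup A := { hA with mul_comm := hc }
  exact PZ_comm A h

theorem PZ_nil (G : Type) [Group G] [Group.IsNilpotent G] (hfg : Group.FG G)
    (h : ∀ x : G, ∀ n : ℕ, 0 < n → x ^ n = 1 → x = 1) : ∃ r, PZ r G := by
  revert hfg h
  refine Group.nilpotent_center_quotient_ind (P := fun G _ _ => Group.FG G →
    (∀ x : G, ∀ n : ℕ, 0 < n → x ^ n = 1 → x = 1) → ∃ r, PZ r G) G ?_ ?_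
  · intro G _ hG _ _
    exact ⟨0, hG⟩
  · intro G _ _ ih hfg h
    obtain ⟨r, hr⟩ := ih (QuotientGroup.fg _) (by
      intro x n hn hx
      obtain ⟨y, rfl⟩ := QuotientGroup.mk'_surjective _ x
      rw [← map_pow, Pool.Agent.Helper111.EN.mk_eq_one_iff] at hx
      rw [Pool.Agent.Helper111.EN.mk_eq_one_iff]
      exact Pool.Agent.Helper111.EN.center_root n (fun x hx => h x n hn hx) y hx)
    have hc : (Subgroup.center G).FG := Pool.Agent.Helper111.EN.center_fg
    have hc' : Group.FG (Subgroup.center G) := (Group.fg_iff_subgroup_fg _).2 hc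
    obtain ⟨s, hs⟩ := PZ_comm' (Subgroup.center G) hc' (by
      intro x y
      exact Subtype.ext (Subgroup.mem_center_iff.mp y.2 x)) (by
      intro x n hn hx
      have h1 : (x : G) ^ n = 1 := by
        have := congrArg Subtype.val hx
        simpa using this
      exact Subtype.ext (h x n hn h1))
    have hk : (Subgroup.center G) = (QuotientGroup.mk' (Subgroup.center G)).ker :=
      (QuotientGroup.ker_mk' _).symm
    have e := MulEquiv.subgroupCongr hk
    refine ⟨s + r, PZ_ext s r G _ (QuotientGroup.mk' (Subgroup.center G))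
      (QuotientGroup.mk'_surjective _) ?_ hr⟩
    exact PZ_of_bijective s _ _ e.toMonoidHom e.bijective hs

theorem sep_nil (G : Type) [Group G] [Group.IsNilpotent G] (hfg : Group.FG G)
    (h : ∀ x : G, ∀ n : ℕ, 0 < n → x ^ n = 1 → x = 1) : Sep G := by
  obtain ⟨r, hr⟩ := PZ_nil G hfg h
  exact sep_of_PZ r G hr

end Pool.Agent.W348.RG
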