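import Pool.Agent.W348.RG.Main
import Pool.Agent.W348.RG.FinDefs
import Pool.Agent.Helper111.EN.Resid

/-!
Project RG, groups with torsion (MP_f60e8a_al): the residual finiteness growth of all finitely
generated nilpotent groups.
-/

set_option autoImplicit false

open Finset TensorProduct

namespace Pool.Agent.W348.RG

attribute [local instance 100] LieRing.ofAssociativeRing

open Pool.Agent.W613.RG

/-- the lower bound, from one element of infinite order (the proof of helper613 for torsion-free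
groups) -/
theorem lowT (hf : S_finp) (G : Type) [Group G] [Group.IsNilpotent G] (S : Finset G)
    (hS : Subgroup.closure (S : Set G) = ⊤)
    (hrf : ∀ g : G, g ≠ 1 → ∃ N : Subgroup G, N.Normal ∧ N.index ≠ 0 ∧ g ∉ N) (c : ℕ) (g₀ : G)
    (htf : ∀ n : ℕ, 0 < n → g₀ ^ n ≠ 1) (p₀ : ℕ)
    (hp₀ : ∀ p, p₀ ≤ p → p.Prime → ∀ j ≤ c, ∀ N : Subgroup G, N.Normal → N.index = p ^ j →
      g₀ ∈ N) :
    ∃ ε : ℝ, 0 < ε ∧ ∀ n : ℕ, 1 ≤ n → ε * (1 + Real.log n) ^ (c + 1) ≤ RF (S : Set G) n := by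
  have hg₀ : g₀ ≠ 1 := fun h => htf 1 one_pos (by rw [h, one_pow])
  -- word length
  have hg₀S : g₀ ∈ Submonoid.closure ((S : Set G) ∪ (S : Set G)⁻¹) := by
    rw [← Subgroup.closure_toSubmonoid, hS]
    trivial
  obtain ⟨w, hw1, hw2⟩ := Submonoid.exists_list_of_mem_closure hg₀S
  set ℓ : ℕ := w.length + 1 with hℓ
  have hgball : g₀ ∈ ball (S : Set G) ℓ := ⟨w, by omega, hw1, hw2⟩
  have hℓ1 : (1 : ℝ) ≤ ℓ := by
    rw [hℓ]
    push_cast
    linarith [Nat.cast_nonneg (α := ℝ) w.length]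
  have hlogℓ : 0 ≤ Real.log ℓ := Real.log_nonneg hℓ1
  -- an element of S
  obtain ⟨s, hs, hs1⟩ : ∃ s ∈ S, s ≠ 1 := by
    by_contra hcon
    push Not at hcon
    have h1 : (S : Set G) ⊆ ((⊥ : Subgroup G) : Set G) := by
      intro x hx
      exact Subgroup.mem_bot.2 (hcon x hx)
    have h2 : Subgroup.closure (S : Set G) ≤ ⊥ := (Subgroup.closure_le _).2 h1
    rw [hS] at h2
    exact hg₀ (Subgroup.mem_bot.1 (h2 (Subgroup.mem_top g₀)))
  have hRF1 : ∀ n : ℕ, 1 ≤ n → 1 ≤ RF (S : Set G) n := by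
    intro n hn
    have h1 : s ∈ ball (S : Set G) n :=
      ⟨[s], by simpa using hn, by simpa using Or.inl hs, by simp⟩
    refine le_trans ?_ (RF_ge h1 hs1)
    exact DG_ge (hrf s hs1) fun N _ hi _ => Nat.pos_of_ne_zero hi
  have hRFm : ∀ m n : ℕ, p₀ ≤ m → Nat.lcmUpto m ^ (2 * (c + 1)) * ℓ ≤ n →
      m ^ (c + 1) ≤ RF (S : Set G) n := by
    intro m n hm hn
    have h1 := ball_mono hn (ball_pow hgball (Nat.lcmUpto m ^ (2 * (c + 1))))
    have h2 : g₀ ^ (Nat.lcmUpto m ^ (2 * (c + 1))) ≠ 1 :=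
      htf _ (pow_pos (Nat.lcmUpto_pos m) _)
    refine le_trans ?_ (RF_ge h1 h2)
    exact DG_ge (hrf _ h2) fun N hN hi hg => index_bound hf g₀ c p₀ m hp₀ hm N hN hi hg
  -- the constants
  set K : ℝ := 2 * ((c : ℝ) + 1) with hK
  have hK0 : 0 < K := by positivity
  set C₁ : ℝ := Real.log 4 + 4 with hC₁
  have hC₁0 : 0 < C₁ := by
    have : 0 < Real.log 4 := Real.log_pos (by norm_num)
    linarith
  set D : ℝ := 2 * (K * C₁) + Real.log ℓ + 1 with hD
  set D' : ℝ := 1 + Real.log ℓ + K * C₁ * ((p₀ : ℝ) + 1) with hD'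
  have hD0 : 0 < D := by positivity
  have hD'0 : 0 < D' := by positivity
  set M : ℝ := max D D' with hM
  have hM0 : 0 < M := lt_max_of_lt_left hD0
  refine ⟨1 / M ^ (c + 1), by positivity, fun n hn => ?_⟩
  have hn1 : (1 : ℝ) ≤ n := by exact_mod_cast hn
  have hlogn : 0 ≤ Real.log n := Real.log_nonneg hn1
  rw [div_mul_eq_mul_div, one_mul, div_le_iff₀ (by positivity)]
  -- the choice of m
  set x : ℝ := (Real.log n - Real.log ℓ) / (K * C₁) with hx
  rcases lt_or_ge x ((p₀ : ℝ) + 1) with hxs | hxl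
  · -- n small
    have h1 : 1 + Real.log n ≤ D' := by
      rw [hx, div_lt_iff₀ (by positivity)] at hxs
      rw [hD']
      nlinarith
    have h2 : (1 + Real.log n) ^ (c + 1) ≤ M ^ (c + 1) :=
      pow_le_pow_left₀ (by positivity) (h1.trans (le_max_right _ _)) _
    have h3 : (1 : ℝ) ≤ RF (S : Set G) n := by exact_mod_cast hRF1 n hn
    calc (1 + Real.log n) ^ (c + 1) ≤ 1 * M ^ (c + 1) := by rw [one_mul]; exact h2
      _ ≤ _ := mul_le_mul_of_nonneg_right h3 (by positivity)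
  · set m : ℕ := ⌊x⌋₊ with hm
    have hx0 : 0 ≤ x := by
      have : (0 : ℝ) ≤ p₀ := Nat.cast_nonneg p₀
      linarith
    have hm1 : (m : ℝ) ≤ x := Nat.floor_le hx0
    have hm2 : x < (m : ℝ) + 1 := Nat.lt_floor_add_one x
    have hm3 : p₀ + 1 ≤ m := by
      rw [hm]
      exact Nat.le_floor (by push_cast; exact hxl)
    have hm4 : (1 : ℝ) ≤ m := by exact_mod_cast (by omega : 1 ≤ m)
    have hsmall : Nat.lcmUpto m ^ (2 * (c + 1)) * ℓ ≤ n := by
      have h1 : Real.log ((Nat.lcmUpto m : ℝ) ^ (2 * (c + 1)) * ℓ) ≤ Real.log n := by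
        have h2 : (0 : ℝ) < Nat.lcmUpto m := by exact_mod_cast Nat.lcmUpto_pos m
        rw [Real.log_mul (by positivity) (by positivity), Real.log_pow,
          ← Chebyshev.psi_eq_log_lcmUpto]
        have h3 := Chebyshev.psi_le_const_mul_self (x := (m : ℝ)) (by positivity)
        have h4 : ((2 * (c + 1) : ℕ) : ℝ) = K := by
          rw [hK]
          push_cast
          ring
        rw [h4]
        rw [hx, le_div_iff₀ (by positivity)] at hm1
        have h5 : K * Chebyshev.psi (m : ℝ) ≤ K * (C₁ * m) := mul_le_mul_of_nonneg_left h3 hK0.le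
        nlinarith
      have h2 : (0 : ℝ) < Nat.lcmUpto m := by exact_mod_cast Nat.lcmUpto_pos m
      have h6 := (Real.log_le_log_iff (by positivity) (by linarith)).1 h1
      exact_mod_cast h6
    have hR := hRFm m n (by omega) hsmall
    have h1 : 1 + Real.log n ≤ D * m := by
      rw [hx, div_lt_iff₀ (by positivity)] at hm2
      rw [hD]
      have h7 : Real.log ℓ ≤ Real.log ℓ * m := le_mul_of_one_le_right hlogℓ hm4
      have h8 : K * C₁ ≤ K * C₁ * m := le_mul_of_one_le_right (by positivity) hm4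
      nlinarith
    have h2 : 1 + Real.log n ≤ M * m :=
      h1.trans (mul_le_mul_of_nonneg_right (le_max_left _ _) (by positivity))
    calc (1 + Real.log n) ^ (c + 1) ≤ (M * m) ^ (c + 1) :=
          pow_le_pow_left₀ (by positivity) h2 _
      _ = (m : ℝ) ^ (c + 1) * M ^ (c + 1) := by rw [mul_pow, mul_comm]
      _ ≤ (RF (S : Set G) n : ℝ) * M ^ (c + 1) := by
        refine mul_le_mul_of_nonneg_right ?_ (by positivity)
        exact_mod_cast hR


/-- residual finiteness -/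
theorem rfin {G : Type} [Group G] [Group.IsNilpotent G] (hfg : Group.FG G) (g : G) (hg : g ≠ 1) :
    ∃ N : Subgroup G, N.Normal ∧ N.index ≠ 0 ∧ g ∉ N := by
  obtain ⟨r, -, -, N, hN, hgN, hfin, -⟩ := Pool.Agent.Helper111.EN.resid (K := G) ∅
    (fun p hp => absurd hp (Set.notMem_empty p)) 2 Nat.prime_two (Set.notMem_empty 2)
    (fun p hp => absurd hp (Set.notMem_empty p)) g hg
  refine ⟨N, hN, ?_, hgN⟩
  rw [Subgroup.index]
  exact Nat.card_ne_zero.mpr ⟨inferInstance, hfin⟩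

/-- the torsion subgroup -/
theorem exists_tor (G : Type) [Group G] [Group.IsNilpotent G] (hfg : Group.FG G) :
    ∃ T : Subgroup G, T.Normal ∧ Finite T ∧ ∀ x : G, ∀ n : ℕ, 0 < n → x ^ n ∈ T → x ∈ T := by
  let E : Submonoid ℕ :=
    { carrier := {n | 0 < n}
      one_mem' := by
        change 0 < 1
        exact one_pos
      mul_mem' := fun {a b} ha hb => Nat.mul_pos ha hb }
  let T : Subgroup G :=
    { carrier := {x | ∃ n ∈ E, x ^ n ∈ (⊥ : Subgroup G)}
      one_mem' := ⟨1, E.one_mem, by rw [one_pow]; exact Subgroup.one_mem _⟩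
      mul_mem' := fun {a b} ha hb => iso G ⊥ E (fun h => lt_irrefl 0 h) a b ha hb
      inv_mem' := by
        rintro a ⟨n, hn, ha⟩
        refine ⟨n, hn, ?_⟩
        rw [inv_pow]
        exact Subgroup.inv_mem _ ha }
  have hT : ∀ x, x ∈ T ↔ ∃ n : ℕ, 0 < n ∧ x ^ n = 1 := fun x => Iff.rfl
  refine ⟨T, ⟨?_⟩, ?_, ?_⟩
  · intro x hx g
    rw [hT] at hx ⊢
    obtain ⟨n, hn, h⟩ := hx
    exact ⟨n, hn, by rw [conj_pow, h, mul_one, mul_inv_cancel]⟩
  · have h1 := Pool.Agent.Helper111.EN.NSc.NS_of_nilpotent_fg (⊤ : Subgroup G)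
      (Group.isNilpotent_top.2 inferInstance) hfg.out
    have hTfg : T.FG := h1 T le_top
    have : Group.FG T := (Group.fg_iff_subgroup_fg _).2 hTfg
    apply Pool.Agent.Helper111.EN.finite_of_fg_nilpotent
    intro g
    rw [isOfFinOrder_iff_pow_eq_one]
    obtain ⟨n, hn, h⟩ := (hT g).mp g.2
    exact ⟨n, hn, Subtype.ext h⟩
  · intro x n hn hx
    rw [hT] at hx ⊢
    obtain ⟨k, hk, h⟩ := hx
    exact ⟨n * k, Nat.mul_pos hn hk, by rw [pow_mul, h]⟩

/-- existence of the representation modulo the torsion subgroup -/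
theorem jenT (G : Type) [Group G] [Group.IsNilpotent G] [hfg : Group.FG G] :
    ∃ (T : Subgroup G) (_ : T.Normal), Finite T ∧ Nonempty (UniRep (G ⧸ T)) := by
  obtain ⟨T, hT, hTf, htf⟩ := exists_tor G hfg
  refine ⟨T, hT, hTf, ?_⟩
  have h1 : Group.FG (G ⧸ T) := QuotientGroup.fg _
  refine jen (G ⧸ T) ?_
  intro x n hn hx
  obtain ⟨y, rfl⟩ := QuotientGroup.mk'_surjective T x
  rw [← map_pow, QuotientGroup.mk'_apply, QuotientGroup.eq_one_iff] at hx
  rw [QuotientGroup.mk'_apply, QuotientGroup.eq_one_iff]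
  exact htf y n hn hx

/-- the element which is killed by all quotients of small prime power order -/
theorem killT (G : Type) [Group G] [Group.IsNilpotent G] (T : Subgroup G) [hT : T.Normal]
    [Finite T] (r : UniRep (G ⧸ T)) (c : ℕ) (hJ : Jc ℂ (ℂ ⊗[ℚ] malcev r) c ≠ ⊥) :
    ∃ g₀ : G, (∀ n : ℕ, 0 < n → g₀ ^ n ≠ 1) ∧ ∃ p₀ : ℕ, ∀ p, p₀ ≤ p → p.Prime → ∀ j ≤ c,
      ∀ N : Subgroup G, N.Normal → N.index = p ^ j → g₀ ∈ N := by
  obtain ⟨g, hg, p₀, hp₀⟩ := all_kill iso (G ⧸ T) r c hJ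
  obtain ⟨g₀, rfl⟩ := QuotientGroup.mk'_surjective T g
  refine ⟨g₀, ?_, max p₀ (Nat.card T + 1), ?_⟩
  · intro n hn h
    apply hg
    refine torsionfree all_exp r _ n hn ?_
    rw [← map_pow, h, map_one]
  · intro p hp hpp j hj N hN hidx
    have hTN : T ≤ N := by
      intro t ht
      have h1 : orderOf (QuotientGroup.mk' N t) ∣ p ^ j := by
        rw [← hidx]
        exact orderOf_dvd_natCard _
      have h2 : orderOf (QuotientGroup.mk' N t) ∣ Nat.card T := by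
        have h3 : orderOf (⟨t, ht⟩ : T) ∣ Nat.card T := orderOf_dvd_natCard _
        have h4 : orderOf (⟨t, ht⟩ : T) = orderOf t := Subgroup.orderOf_mk t ht
        rw [h4] at h3
        exact (orderOf_map_dvd (QuotientGroup.mk' N) t).trans h3
      have hcop : Nat.Coprime (p ^ j) (Nat.card T) := by
        refine Nat.Coprime.pow_left j ?_
        refine Nat.coprime_of_lt_prime ?_ ?_ hpp
        · exact (Nat.card_pos).ne'
        · have := le_max_right p₀ (Nat.card T + 1)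
          omega
      have h5 : orderOf (QuotientGroup.mk' N t) = 1 := Nat.eq_one_of_dvd_coprimes hcop h1 h2
      rw [orderOf_eq_one_iff, QuotientGroup.mk'_apply, QuotientGroup.eq_one_iff] at h5
      exact h5
    have hker : (QuotientGroup.mk' T).ker ≤ N := by
      rw [QuotientGroup.ker_mk']
      exact hTN
    have h6 : (N.map (QuotientGroup.mk' T)).index = p ^ j := by
      rw [← hidx]
      exact Subgroup.index_map_eq N (QuotientGroup.mk'_surjective T) hker
    have h7 := hp₀ p ((le_max_left _ _).trans hp) hpp j hj (N.map (QuotientGroup.mk' T))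
      (hN.map _ (QuotientGroup.mk'_surjective T)) h6
    obtain ⟨x, hx, hxg⟩ := h7
    have h8 : x⁻¹ * g₀ ∈ T := QuotientGroup.eq.mp hxg
    have h9 := N.mul_mem hx (hTN h8)
    rwa [mul_inv_cancel_left] at h9

theorem bndT (G : Type) [Group G] [Group.IsNilpotent G] [Nontrivial G] (T : Subgroup G)
    [hT : T.Normal] [hTf : Finite T] (r : UniRep (G ⧸ T)) (S : Finset G) (hS : Gen S) :
    LogPow (RF (S : Set G)) (kc r) := by
  classical
  have hS' : Subgroup.closure (S : Set G) = ⊤ := hS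
  have hfg : Group.FG G := Group.fg_iff.mpr ⟨S, hS', S.finite_toSet⟩
  have hfin := finite_malcev r
  set k := kinv ℂ (ℂ ⊗[ℚ] malcev r) with hk
  have hJ : Jc ℂ (ℂ ⊗[ℚ] malcev r) k = ⊥ := Jc_kinv _ _
  -- the upper bound
  set S' : Finset (G ⧸ T) := S.image (QuotientGroup.mk' T) with hS'def
  have hgen' : Subgroup.closure (S' : Set (G ⧸ T)) = ⊤ := by
    rw [hS'def, Finset.coe_image, ← MonoidHom.map_closure, hS', ← MonoidHom.range_eq_map,
      MonoidHom.range_eq_top.mpr (QuotientGroup.mk'_surjective T)]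
  have hball : ∀ n, ∀ g ∈ ball (S : Set G) n,
      QuotientGroup.mk' T g ∈ ball (S' : Set (G ⧸ T)) n := by
    rintro n g ⟨l, hl, hlS, rfl⟩
    refine ⟨l.map (QuotientGroup.mk' T), by rw [List.length_map]; exact hl, ?_,
      (map_list_prod _ _).symm⟩
    intro y hy
    obtain ⟨x, hx, rfl⟩ := List.mem_map.mp hy
    rcases hlS x hx with h | h
    · left
      rw [hS'def, Finset.coe_image]
      exact ⟨x, h, rfl⟩
    · right
      rw [hS'def, Finset.coe_image]
      exact ⟨x⁻¹, h, map_inv _ _⟩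
  obtain ⟨C, hC, hup⟩ := all_upg (G ⧸ T) r S' hgen' k hJ
  -- torsion elements
  have hrf : ∀ g : G, g ≠ 1 → ∃ N : Subgroup G, N.Normal ∧ N.index ≠ 0 ∧ g ∉ N :=
    fun g hg => rfin hfg g hg
  choose! Nf hN1 hN2 hN3 using hrf
  have hrf : ∀ g : G, g ≠ 1 → ∃ N : Subgroup G, N.Normal ∧ N.index ≠ 0 ∧ g ∉ N :=
    fun g hg => rfin hfg g hg
  obtain ⟨B, hB⟩ : ∃ B : ℕ, ∀ g ∈ T, (Nf g).index ≤ B := by
    have hfinT : ((fun g => (Nf g).index) '' (T : Set G)).Finite :=
      (Set.toFinite (T : Set G)).image _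
    obtain ⟨B, hB⟩ := hfinT.bddAbove
    exact ⟨B, fun g hg => hB ⟨g, hg, rfl⟩⟩
  have hlog : ∀ n : ℕ, 1 ≤ n → (RF (S : Set G) n : ℝ) ≤ (C * 2 ^ k + B) * (1 + Real.log n) ^ k := by
    intro n hn
    have hn0 : 0 ≤ Real.log n := Real.log_natCast_nonneg n
    have h1 : (1 : ℝ) ≤ (1 + Real.log n) ^ k := one_le_pow₀ (by linarith)
    have hB0 : (0 : ℝ) ≤ B := Nat.cast_nonneg B
    have hX : 0 ≤ C * 2 ^ k := by positivity
    have hle1 : C * (1 + Real.log (n + 1)) ^ k ≤ (C * 2 ^ k + B) * (1 + Real.log n) ^ k := by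
      have hn1 : 0 ≤ Real.log (n + 1) := by
        have := Real.log_natCast_nonneg (n + 1)
        rwa [Nat.cast_add, Nat.cast_one] at this
      have h2 : (1 + Real.log (n + 1)) ^ k ≤ (2 * (1 + Real.log n)) ^ k := by
        refine pow_le_pow_left₀ (by linarith) ?_ k
        have := log_succ_le hn
        linarith
      rw [mul_pow] at h2
      have h3 : C * (1 + Real.log (n + 1)) ^ k ≤ C * (2 ^ k * (1 + Real.log n) ^ k) :=
        mul_le_mul_of_nonneg_left h2 hC.le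
      have h4 : 0 ≤ (B : ℝ) * (1 + Real.log n) ^ k := by positivity
      nlinarith
    have hle2 : (B : ℝ) ≤ (C * 2 ^ k + B) * (1 + Real.log n) ^ k := by
      have h5 : (B : ℝ) * 1 ≤ (B : ℝ) * (1 + Real.log n) ^ k := mul_le_mul_of_nonneg_left h1 hB0
      have h6 : 0 ≤ C * 2 ^ k * (1 + Real.log n) ^ k := by positivity
      nlinarith
    refine RF_le _ n _ (by positivity) fun g hg hg1 => ?_
    by_cases hgT : g ∈ T
    · refine ⟨Nf g, hN1 g hg1, hN2 g hg1, hN3 g hg1, ?_⟩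
      exact le_trans (by exact_mod_cast hB g hgT) hle2
    · obtain ⟨N, h2, h3, h4, h5⟩ := hup n _ (hball n g hg) (fun h => hgT (by
        rwa [QuotientGroup.mk'_apply, QuotientGroup.eq_one_iff] at h))
      have h6 : (N.comap (QuotientGroup.mk' T)).index = N.index :=
        Subgroup.index_comap_of_surjective N (QuotientGroup.mk'_surjective T)
      refine ⟨N.comap (QuotientGroup.mk' T), h2.comap _, by rw [h6]; exact h3, h4, ?_⟩
      rw [h6]
      exact h5.trans hle1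
  -- the lower bound
  rcases Nat.eq_zero_or_pos k with hk0 | hk0
  · refine ⟨1, C * 2 ^ k + B, one_pos, fun n hn => ⟨?_, hlog n hn⟩⟩
    change 1 * (1 + Real.log n) ^ k ≤ (RF (S : Set G) n : ℝ)
    rw [hk0, pow_zero, mul_one]
    obtain ⟨s, hs, hs1⟩ : ∃ s ∈ S, s ≠ 1 := by
      by_contra hcon
      push Not at hcon
      have h1 : (S : Set G) ⊆ ((⊥ : Subgroup G) : Set G) := by
        intro x hx
        exact Subgroup.mem_bot.2 (hcon x hx)
      have h2 : Subgroup.closure (S : Set G) ≤ ⊥ := (Subgroup.closure_le _).2 h1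
      rw [hS'] at h2
      obtain ⟨g, hg⟩ := exists_ne (1 : G)
      exact hg (Subgroup.mem_bot.1 (h2 (Subgroup.mem_top g)))
    have h1 : s ∈ ball (S : Set G) n :=
      ⟨[s], by simpa using hn, by simpa using Or.inl hs, by simp⟩
    have h2 : 1 ≤ RF (S : Set G) n := by
      refine le_trans ?_ (RF_ge h1 hs1)
      exact DG_ge (hrf s hs1) fun N _ hi _ => Nat.pos_of_ne_zero hi
    exact_mod_cast h2
  · have hJ' : Jc ℂ (ℂ ⊗[ℚ] malcev r) (k - 1) ≠ ⊥ := Jc_ne_bot_of_lt (by omega)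
    obtain ⟨g₀, hg₀, p₀, hp₀⟩ := killT G T r (k - 1) hJ'
    obtain ⟨ε, hε, hlo⟩ := lowT finp G S hS' hrf (k - 1) g₀ hg₀ p₀ hp₀
    refine ⟨ε, C * 2 ^ k + B, hε, fun n hn => ⟨?_, hlog n hn⟩⟩
    have h1 := hlo n hn
    rw [Nat.sub_add_cancel hk0] at h1
    exact h1

theorem cmpT (G₁ G₂ : Type) [Group G₁] [Group G₂] [Group.IsNilpotent G₁] [Group.IsNilpotent G₂]
    [Nontrivial G₁] [Nontrivial G₂] (T₁ : Subgroup G₁) (T₂ : Subgroup G₂) [T₁.Normal] [T₂.Normal]
    [Finite T₁] [Finite T₂] (r₁ : UniRep (G₁ ⧸ T₁)) (r₂ : UniRep (G₂ ⧸ T₂)) (S₁ : Finset G₁)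
    (S₂ : Finset G₂) (hS₁ : Gen S₁) (hS₂ : Gen S₂) (h : SameC r₁ r₂) :
    Dom (RF (S₁ : Set G₁)) (RF (S₂ : Set G₂)) ∧ Dom (RF (S₂ : Set G₂)) (RF (S₁ : Set G₁)) := by
  obtain ⟨ε₁, C₁, hε₁, hb₁⟩ := bndT G₁ T₁ r₁ S₁ hS₁
  obtain ⟨ε₂, C₂, hε₂, hb₂⟩ := bndT G₂ T₂ r₂ S₂ hS₂
  obtain ⟨e⟩ := h
  have hk : kc r₁ = kc r₂ := kinv_eq_of_equiv e
  rw [hk] at hb₁
  exact ⟨dom_of_bnd hε₂ (RF_zero _) (fun n hn => (hb₁ n hn).2) (fun n hn => (hb₂ n hn).1),
    dom_of_bnd hε₁ (RF_zero _) (fun n hn => (hb₂ n hn).2) (fun n hn => (hb₁ n hn).1)⟩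

end Pool.Agent.W348.RG
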